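import Mathlib

set_option autoImplicit false

/-!
Zonal polynomials `Q_k` (in the variable `w = s^2`), their differential equation, orthogonality,
and the Rellich type identity.
-/

namespace Pool.Agent.Lib.MP_6a2c25_an

open Polynomial Real MeasureTheory intervalIntegral

/-- The eigenvalue `2k(2k+d-1)`. -/
noncomputable def lam (d k : ℕ) : ℝ := (2 * k) * (2 * k + d - 1)

/-- Coefficients of the zonal polynomial. -/
noncomputable def zc (d k : ℕ) : ℕ → ℝ
  | 0 => 1
  | (i + 1) => zc d k i * ((2 * i) * (2 * i + d - 1) - lam d k) / ((2 * i + 2) * (2 * i + 1))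

/-- The zonal polynomial in the variable `w = s^2`. -/
noncomputable def zon (d k : ℕ) : ℝ[X] := ∑ i ∈ Finset.range (k + 1), C (zc d k i) * X ^ i

lemma zc_succ (d k i : ℕ) : zc d k (i + 1) * ((2 * i + 2) * (2 * i + 1)) =
    zc d k i * ((2 * i) * (2 * i + d - 1) - lam d k) := by
  have h : ((2 * i + 2) * (2 * i + 1) : ℝ) ≠ 0 := by positivity
  rw [zc, div_mul_cancel₀ _ h]

lemma zc_k_succ (d k : ℕ) : zc d k (k + 1) = 0 := by
  rw [zc, lam]; simp

lemma zon_eval_zero (d k : ℕ) : (zon d k).eval 0 = 1 := by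
  unfold zon
  rw [eval_finsetSum, Finset.sum_range_succ']
  simp [zc]

/-- The hypergeometric differential equation. -/
lemma zon_ode (d k : ℕ) (w : ℝ) :
    4 * w * (1 - w) * (derivative (derivative (zon d k))).eval w +
      (2 - 2 * (d + 1) * w) * (derivative (zon d k)).eval w + lam d k * (zon d k).eval w = 0 := by
  have e0 : (zon d k).eval w = ∑ i ∈ Finset.range (k + 1), zc d k i * w ^ i := by
    unfold zon
    rw [eval_finsetSum]
    simp
  have e1 : (derivative (zon d k)).eval w =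
      ∑ i ∈ Finset.range (k + 1), zc d k i * (i * w ^ (i - 1)) := by
    unfold zon
    rw [derivative_sum, eval_finsetSum]
    apply Finset.sum_congr rfl
    intro i _
    simp [derivative_X_pow]
  have e2 : (derivative (derivative (zon d k))).eval w =
      ∑ i ∈ Finset.range (k + 1), zc d k i * (i * ((i - 1 : ℕ) * w ^ (i - 1 - 1))) := by
    unfold zon
    rw [derivative_sum, derivative_sum, eval_finsetSum]
    apply Finset.sum_congr rfl
    intro i _
    simp [derivative_X_pow]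
  rw [e0, e1, e2, Finset.mul_sum, Finset.mul_sum, Finset.mul_sum, ← Finset.sum_add_distrib,
    ← Finset.sum_add_distrib]
  have h : ∀ i ∈ Finset.range (k + 1),
      4 * w * (1 - w) * (zc d k i * (i * ((i - 1 : ℕ) * w ^ (i - 1 - 1)))) +
        (2 - 2 * (d + 1) * w) * (zc d k i * (i * w ^ (i - 1))) + lam d k * (zc d k i * w ^ i) =
      zc d k i * ((2 * i) * (2 * i - 1)) * w ^ (i - 1) -
        zc d k (i + 1) * ((2 * i + 2) * (2 * i + 1)) * w ^ i := by
    intro i _
    rw [zc_succ]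
    rcases i with _ | _ | i
    · simp; ring
    · simp; ring
    · simp only [Nat.add_sub_cancel]
      have : i + 1 + 1 - 1 = i + 1 := rfl
      push_cast [this]
      ring
  rw [Finset.sum_congr rfl h, Finset.sum_sub_distrib, Finset.sum_range_succ',
    Finset.sum_range_succ (fun i => zc d k (i + 1) * ((2 * (i : ℝ) + 2) * (2 * i + 1)) * w ^ i),
    zc_k_succ]
  simp only [Nat.add_sub_cancel, Nat.cast_zero, mul_zero, zero_mul, add_zero]
  rw [sub_eq_zero]
  apply Finset.sum_congr rfl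
  intro i _
  push_cast
  ring

/-- `y(φ) = Q(sin² φ)`. -/
noncomputable def yy (d k : ℕ) (φ : ℝ) : ℝ := (zon d k).eval (sin φ ^ 2)

/-- `y'(φ) = 2 sin φ cos φ Q'(sin² φ)`. -/
noncomputable def yy1 (d k : ℕ) (φ : ℝ) : ℝ :=
  2 * sin φ * cos φ * (derivative (zon d k)).eval (sin φ ^ 2)

lemma hasDerivAt_eval_sin_sq (P : ℝ[X]) (φ : ℝ) :
    HasDerivAt (fun φ => P.eval (sin φ ^ 2))
      (2 * sin φ * cos φ * (derivative P).eval (sin φ ^ 2)) φ := by
  have h1 : HasDerivAt (fun φ => sin φ ^ 2) (2 * sin φ * cos φ) φ := by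
    have := (hasDerivAt_sin φ).pow 2
    refine this.congr_deriv ?_
    simp
  have h2 := (P.hasDerivAt (sin φ ^ 2)).comp φ h1
  refine h2.congr_deriv ?_
  ring

lemma hasDerivAt_yy (d k : ℕ) (φ : ℝ) : HasDerivAt (yy d k) (yy1 d k φ) φ :=
  hasDerivAt_eval_sin_sq (zon d k) φ

/-- `W = cos^{d-1} y' = 2 sin cos^d Q'`. -/
noncomputable def WW (d k : ℕ) (φ : ℝ) : ℝ :=
  2 * sin φ * cos φ ^ d * (derivative (zon d k)).eval (sin φ ^ 2)

lemma WW_eq (d k : ℕ) (φ : ℝ) : WW (d + 1) k φ = cos φ ^ d * yy1 (d + 1) k φ := by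
  unfold WW yy1
  rw [pow_succ]
  ring

lemma hasDerivAt_WW (d k : ℕ) (φ : ℝ) :
    HasDerivAt (WW (d + 1) k) (- lam (d + 1) k * (cos φ ^ d * yy (d + 1) k φ)) φ := by
  have h1 := hasDerivAt_eval_sin_sq (derivative (zon (d + 1) k)) φ
  have h2 := (((hasDerivAt_sin φ).const_mul 2).mul ((hasDerivAt_cos φ).pow (d + 1))).mul h1
  have ode := zon_ode (d + 1) k (sin φ ^ 2)
  have hc : cos φ ^ 2 = 1 - sin φ ^ 2 := cos_sq' φ
  refine h2.congr_deriv ?_
  unfold yy
  simp only [Pi.mul_apply, Pi.pow_apply, Nat.add_sub_cancel]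
  push_cast at ode ⊢
  set A := eval (sin φ ^ 2) (derivative (derivative (zon (d + 1) k)))
  set B := eval (sin φ ^ 2) (derivative (zon (d + 1) k))
  set D := eval (sin φ ^ 2) (zon (d + 1) k)
  have e1 : cos φ ^ (d + 1) = cos φ ^ d * cos φ := pow_succ _ _
  rw [e1]
  linear_combination (cos φ ^ d) * ode + cos φ ^ d * (4 * sin φ ^ 2 * A + 2 * B) * hc

/-- Green's identity. -/
lemma yy_orthogonal (d j k : ℕ) (hjk : lam (d + 1) j ≠ lam (d + 1) k) :
    ∫ φ in (0 : ℝ)..(π / 2), cos φ ^ d * (yy (d + 1) j φ * yy (d + 1) k φ) = 0 := by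
  have h1 : ∀ φ ∈ Set.uIcc 0 (π / 2), HasDerivAt
      (fun φ => yy (d + 1) j φ * WW (d + 1) k φ - WW (d + 1) j φ * yy (d + 1) k φ)
      ((lam (d + 1) j - lam (d + 1) k) * (cos φ ^ d * (yy (d + 1) j φ * yy (d + 1) k φ))) φ := by
    intro φ _
    have h2 := ((hasDerivAt_yy (d + 1) j φ).mul (hasDerivAt_WW d k φ)).sub
      ((hasDerivAt_WW d j φ).mul (hasDerivAt_yy (d + 1) k φ))
    refine h2.congr_deriv ?_
    rw [WW_eq, WW_eq]
    ring
  have hcont : Continuous (fun φ => (lam (d + 1) j - lam (d + 1) k) *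
      (cos φ ^ d * (yy (d + 1) j φ * yy (d + 1) k φ))) := by
    unfold yy
    fun_prop
  have h3 := integral_eq_sub_of_hasDerivAt h1 (hcont.intervalIntegrable _ _)
  rw [intervalIntegral.integral_const_mul] at h3
  have h4 : yy (d + 1) j (π / 2) * WW (d + 1) k (π / 2) - WW (d + 1) j (π / 2) * yy (d + 1) k (π / 2) -
      (yy (d + 1) j 0 * WW (d + 1) k 0 - WW (d + 1) j 0 * yy (d + 1) k 0) = 0 := by
    unfold WW
    simp
  rw [h4] at h3
  rcases mul_eq_zero.mp h3 with h | h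
  · exact absurd (sub_eq_zero.mp h) hjk
  · exact h

/-- The Rellich type identity. -/
lemma rellich (d k : ℕ) :
    (2 * lam (d + 2) k + (d + 2) * d / 2) *
      ∫ φ in (0 : ℝ)..(π / 2), sin φ * (cos φ ^ (d + 1) * yy (d + 2) k φ ^ 2) =
      lam (d + 2) k + d / 2 := by
  have h1 : ∀ φ ∈ Set.uIcc 0 (π / 2), HasDerivAt
      (fun φ => 4 * (sin φ ^ 2 * (cos φ ^ (d + 4) * (derivative (zon (d + 2) k)).eval (sin φ ^ 2) ^ 2))
        - 2 * d * (sin φ ^ 2 * (cos φ ^ (d + 2) * ((zon (d + 2) k).eval (sin φ ^ 2) *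
            (derivative (zon (d + 2) k)).eval (sin φ ^ 2))))
        + (lam (d + 2) k + d / 2) * (cos φ ^ (d + 2) * (zon (d + 2) k).eval (sin φ ^ 2) ^ 2))
      (- (2 * lam (d + 2) k + (d + 2) * d / 2) *
        (sin φ * (cos φ ^ (d + 1) * yy (d + 2) k φ ^ 2))) φ := by
    intro φ _
    have s1 := (hasDerivAt_sin φ).pow 2
    have c1 := (hasDerivAt_cos φ).pow (d + 4)
    have c2 := (hasDerivAt_cos φ).pow (d + 2)
    have q0 := hasDerivAt_eval_sin_sq (zon (d + 2) k) φ
    have q1 := hasDerivAt_eval_sin_sq (derivative (zon (d + 2) k)) φ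
    have h2 := (((s1.mul (c1.mul (q1.pow 2))).const_mul 4).sub
      ((s1.mul (c2.mul (q0.mul q1))).const_mul (2 * (d : ℝ)))).add
      ((c2.mul (q0.pow 2)).const_mul (lam (d + 2) k + d / 2))
    refine h2.congr_deriv ?_
    have ode := zon_ode (d + 2) k (sin φ ^ 2)
    have hc : cos φ ^ 2 = 1 - sin φ ^ 2 := cos_sq' φ
    unfold yy
    simp only [Pi.mul_apply, Pi.pow_apply]
    push_cast at ode ⊢
    set A := eval (sin φ ^ 2) (derivative (derivative (zon (d + 2) k)))
    set B := eval (sin φ ^ 2) (derivative (zon (d + 2) k))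
    set D := eval (sin φ ^ 2) (zon (d + 2) k)
    set L := lam (d + 2) k
    have e1 : cos φ ^ (d + 4) = cos φ ^ (d + 1) * (cos φ * cos φ ^ 2) := by ring
    have e2 : cos φ ^ (d + 3) = cos φ ^ (d + 1) * cos φ ^ 2 := by ring
    have e3 : cos φ ^ (d + 2) = cos φ ^ (d + 1) * cos φ := by ring
    rw [e1, e2, e3]
    set c := cos φ
    set s := sin φ
    set T := c ^ (d + 1)
    linear_combination (T * (4 * s * c ^ 2 * B - d * s * D)) * ode +
      (T * ((4 * s * c ^ 2 * B - d * s * D) * (4 * s ^ 2 * A) + 8 * s * c ^ 2 * B ^ 2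
        - 2 * d * s * D * B)) * hc
  have hcont : Continuous (fun φ => - (2 * lam (d + 2) k + (d + 2) * d / 2) *
        (sin φ * (cos φ ^ (d + 1) * yy (d + 2) k φ ^ 2))) := by
    unfold yy
    fun_prop
  have h3 := integral_eq_sub_of_hasDerivAt h1 (hcont.intervalIntegrable _ _)
  rw [intervalIntegral.integral_const_mul] at h3
  simp only [cos_pi_div_two, sin_zero, cos_zero, sin_pi_div_two] at h3
  rw [show (0 : ℝ) ^ 2 = 0 by norm_num, zon_eval_zero] at h3
  simp only [one_pow, mul_one, one_mul, zero_mul, mul_zero, sub_zero, zero_add,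
    zero_pow (Nat.succ_ne_zero _)] at h3
  linarith

end Pool.Agent.Lib.MP_6a2c25_an
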