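import Mathlib
import Pool.Agent.Lib.MP_6a2c25_an.Zonal

set_option autoImplicit false

/-!
Asymptotics of the zonal functions near the equator.
-/

namespace Pool.Agent.Lib.MP_6a2c25_an

open Polynomial Real MeasureTheory intervalIntegral

/-- `ρ = (D-1)/2` for the dimension `D = d + 2`. -/
noncomputable def rho (d : ℕ) : ℝ := (d + 1) / 2

/-- `ν = 2k + ρ`. -/
noncomputable def nu (d k : ℕ) : ℝ := 2 * k + rho d

/-- `κ = ρ(ρ-1)`. -/
noncomputable def kap (d : ℕ) : ℝ := rho d * (rho d - 1)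

lemma rho_pos (d : ℕ) : 0 < rho d := by unfold rho; positivity

lemma nu_pos (d k : ℕ) : 0 < nu d k := by
  unfold nu
  have := rho_pos d
  positivity

lemma lam_eq (d k : ℕ) : lam (d + 2) k = nu d k ^ 2 - rho d ^ 2 := by
  unfold lam nu rho
  push_cast
  ring

/-- `v(φ) = cos^ρ(φ) y(φ)`. -/
noncomputable def vv (d k : ℕ) (φ : ℝ) : ℝ := cos φ ^ rho d * yy (d + 2) k φ

/-- `v'(φ)`. -/
noncomputable def vd (d k : ℕ) (φ : ℝ) : ℝ :=
  cos φ ^ rho d * (yy1 (d + 2) k φ - rho d * (sin φ / cos φ) * yy (d + 2) k φ)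

lemma hasDerivAt_cos_rpow (r : ℝ) {φ : ℝ} (h : 0 < cos φ) :
    HasDerivAt (fun φ => cos φ ^ r) (- r * (sin φ / cos φ) * cos φ ^ r) φ := by
  have h1 := (hasDerivAt_cos φ).rpow_const (p := r) (Or.inl h.ne')
  refine h1.congr_deriv ?_
  rw [rpow_sub_one h.ne']
  field_simp

lemma hasDerivAt_yy1 (d k : ℕ) {φ : ℝ} (h : 0 < cos φ) :
    HasDerivAt (yy1 (d + 2) k)
      ((d + 1) * (sin φ / cos φ) * yy1 (d + 2) k φ - lam (d + 2) k * yy (d + 2) k φ) φ := by
  have h1 := hasDerivAt_eval_sin_sq (derivative (zon (d + 2) k)) φ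
  have h2 := (((hasDerivAt_sin φ).const_mul 2).mul (hasDerivAt_cos φ)).mul h1
  have ode := zon_ode (d + 2) k (sin φ ^ 2)
  have hc : cos φ ^ 2 = 1 - sin φ ^ 2 := cos_sq' φ
  refine h2.congr_deriv ?_
  unfold yy yy1
  simp only [Pi.mul_apply]
  push_cast at ode ⊢
  set A := eval (sin φ ^ 2) (derivative (derivative (zon (d + 2) k)))
  set B := eval (sin φ ^ 2) (derivative (zon (d + 2) k))
  set D := eval (sin φ ^ 2) (zon (d + 2) k)
  have e : (d + 1 : ℝ) * (sin φ / cos φ) * (2 * sin φ * cos φ * B) =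
      2 * (d + 1) * sin φ ^ 2 * B := by
    field_simp
  rw [e]
  linear_combination ode + (4 * sin φ ^ 2 * A + 2 * B) * hc

lemma hasDerivAt_vv (d k : ℕ) {φ : ℝ} (h : 0 < cos φ) : HasDerivAt (vv d k) (vd d k φ) φ := by
  have h1 := (hasDerivAt_cos_rpow (rho d) h).mul (hasDerivAt_yy (d + 2) k φ)
  refine h1.congr_deriv ?_
  unfold vd
  ring

lemma hasDerivAt_vd (d k : ℕ) {φ : ℝ} (h : 0 < cos φ) :
    HasDerivAt (vd d k) (- (nu d k ^ 2 - kap d / cos φ ^ 2) * vv d k φ) φ := by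
  have h1 := hasDerivAt_cos_rpow (rho d) h
  have h2 := hasDerivAt_yy1 d k h
  have h3 : HasDerivAt (fun φ => sin φ / cos φ) (1 / cos φ ^ 2) φ := by
    have := (hasDerivAt_sin φ).div (hasDerivAt_cos φ) h.ne'
    refine this.congr_deriv ?_
    congr 1
    have := sin_sq_add_cos_sq φ
    linear_combination this
  have h4 := h1.mul (h2.sub (((h3.const_mul (rho d))).mul (hasDerivAt_yy (d + 2) k φ)))
  refine h4.congr_deriv ?_
  simp only [Pi.mul_apply, Pi.sub_apply]
  unfold vv kap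
  rw [lam_eq]
  have hs : sin φ ^ 2 = 1 - cos φ ^ 2 := sin_sq φ
  have hrho : (d + 1 : ℝ) = 2 * rho d := by unfold rho; ring
  rw [hrho]
  set w := cos φ ^ rho d
  set y := yy (d + 2) k φ
  set y1 := yy1 (d + 2) k φ
  set r := rho d
  set s := sin φ
  set c := cos φ
  field_simp
  linear_combination (w * y * r ^ 2) * hs

/-- The complex amplitude. -/
noncomputable def gg (d k : ℕ) (φ : ℝ) : ℂ :=
  Complex.exp (-(Complex.I * (nu d k * φ : ℝ))) * ((vd d k φ : ℂ) + Complex.I * (nu d k * vv d k φ : ℝ))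

lemma hasDerivAt_gg (d k : ℕ) {φ : ℝ} (h : 0 < cos φ) :
    HasDerivAt (gg d k)
      (Complex.exp (-(Complex.I * (nu d k * φ : ℝ))) * (kap d / cos φ ^ 2 * vv d k φ : ℝ)) φ := by
  have h1 : HasDerivAt (fun φ : ℝ => Complex.exp (-(Complex.I * (nu d k * φ : ℝ))))
      (Complex.exp (-(Complex.I * (nu d k * φ : ℝ))) * (-(Complex.I * (nu d k : ℝ)))) φ := by
    have h2 : HasDerivAt (fun φ : ℝ => (-(Complex.I * (nu d k * φ : ℝ)) : ℂ))
        (-(Complex.I * (nu d k : ℝ))) φ := by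
      have h3 : HasDerivAt (fun φ : ℝ => nu d k * φ) (nu d k) φ := by
        simpa using (hasDerivAt_id φ).const_mul (nu d k)
      exact (h3.ofReal_comp.const_mul Complex.I).neg
    exact h2.cexp
  have h4 := (hasDerivAt_vd d k h).ofReal_comp
  have h5 := (((hasDerivAt_vv d k h).const_mul (nu d k)).ofReal_comp).const_mul Complex.I
  have h6 := h1.mul (h4.add h5)
  refine h6.congr_deriv ?_
  simp only [Pi.add_apply]
  push_cast
  have hI : Complex.I ^ 2 = -1 := Complex.I_sq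
  linear_combination (- Complex.exp (-(Complex.I * (nu d k * φ))) * (nu d k) ^ 2 * vv d k φ) * hI

lemma gg_zero (d k : ℕ) : gg d k 0 = Complex.I * nu d k := by
  unfold gg vd vv yy yy1
  simp [zon_eval_zero]

lemma abs_vv_le (d k : ℕ) (φ : ℝ) : nu d k * |vv d k φ| ≤ ‖gg d k φ‖ := by
  unfold gg
  rw [norm_mul]
  have h1 : ‖Complex.exp (-(Complex.I * (nu d k * φ : ℝ)))‖ = 1 := by
    rw [← mul_neg, ← Complex.ofReal_neg, mul_comm]
    exact Complex.norm_exp_ofReal_mul_I _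
  rw [h1, one_mul]
  have h2 := Complex.abs_im_le_norm ((vd d k φ : ℂ) + Complex.I * (nu d k * vv d k φ : ℝ))
  have h3 : ((vd d k φ : ℂ) + Complex.I * (nu d k * vv d k φ : ℝ)).im = nu d k * vv d k φ := by
    simp
  rw [h3, abs_mul, abs_of_pos (nu_pos d k)] at h2
  exact h2

lemma cos_bound {φ : ℝ} (h : φ ∈ Set.Icc 0 (π / 4)) : 0 < cos φ ∧ 1 / 2 ≤ cos φ ^ 2 := by
  have hpi := pi_pos
  have h1 : cos (π / 4) ≤ cos φ :=
    cos_le_cos_of_nonneg_of_le_pi h.1 (by linarith) h.2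
  rw [cos_pi_div_four] at h1
  have h2 : 0 < √2 / 2 := by positivity
  refine ⟨by linarith, ?_⟩
  have h3 : (√2 / 2) ^ 2 = 1 / 2 := by
    rw [div_pow, sq_sqrt (by norm_num)]
    norm_num
  rw [← h3]
  gcongr

/-- The asymptotic estimate on `[0, π/4]`. -/
lemma asymp (d k : ℕ) (hk : 4 * |kap d| ≤ nu d k) {φ : ℝ} (hφ : φ ∈ Set.Icc 0 (π / 4)) :
    |vv d k φ| ≤ 2 ∧ |vv d k φ - cos (nu d k * φ)| ≤ 4 * |kap d| / nu d k := by
  have hnu := nu_pos d k
  have hpi : π / 4 ≤ 1 := by have := pi_le_four; linarith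
  have hcont : ContinuousOn (fun φ => ‖gg d k φ‖) (Set.Icc 0 (π / 4)) := by
    intro x hx
    exact ((hasDerivAt_gg d k (cos_bound hx).1).continuousAt.norm).continuousWithinAt
  have hpi4 : (0 : ℝ) ≤ π / 4 := by positivity
  obtain ⟨x, hx, hmax⟩ := isCompact_Icc.exists_isMaxOn ⟨0, Set.left_mem_Icc.mpr hpi4⟩ hcont
  set m := ‖gg d k x‖ with hm
  have hmax' : ∀ y ∈ Set.Icc 0 (π / 4), ‖gg d k y‖ ≤ m := fun y hy => hmax hy
  have hm0 : 0 ≤ m := norm_nonneg _
  have hmv : ∀ y ∈ Set.Icc 0 (π / 4), ‖gg d k y - gg d k 0‖ ≤ (2 * |kap d| * (m / nu d k)) * (y - 0) := by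
    apply norm_image_sub_le_of_norm_deriv_le_segment' (f' := fun φ =>
      Complex.exp (-(Complex.I * (nu d k * φ : ℝ))) * (kap d / cos φ ^ 2 * vv d k φ : ℝ))
    · intro y hy
      exact (hasDerivAt_gg d k (cos_bound hy).1).hasDerivWithinAt
    · intro y hy
      have hy' : y ∈ Set.Icc 0 (π / 4) := ⟨hy.1, hy.2.le⟩
      obtain ⟨hc1, hc2⟩ := cos_bound hy'
      rw [norm_mul]
      have h1 : ‖Complex.exp (-(Complex.I * (nu d k * y : ℝ)))‖ = 1 := by
        rw [← mul_neg, ← Complex.ofReal_neg, mul_comm]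
        exact Complex.norm_exp_ofReal_mul_I _
      rw [h1, one_mul, Complex.norm_real, norm_mul, norm_div, Real.norm_eq_abs, Real.norm_eq_abs,
        Real.norm_eq_abs, abs_of_pos (by positivity : 0 < cos y ^ 2)]
      have h2 : |vv d k y| ≤ m / nu d k := by
        rw [le_div_iff₀ hnu, mul_comm]
        exact (abs_vv_le d k y).trans (hmax' y hy')
      have h3 : |kap d| / cos y ^ 2 ≤ 2 * |kap d| := by
        rw [div_le_iff₀ (by positivity)]
        nlinarith [abs_nonneg (kap d)]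
      exact mul_le_mul h3 h2 (abs_nonneg _) (by positivity)
  have hg0 : ‖gg d k 0‖ = nu d k := by
    rw [gg_zero, norm_mul, Complex.norm_I, one_mul, Complex.norm_real, Real.norm_eq_abs,
      abs_of_pos hnu]
  have hKm : 0 ≤ 2 * |kap d| * (m / nu d k) := by positivity
  have hm2 : m ≤ 2 * nu d k := by
    have h1 := hmv x hx
    have h2 : m ≤ ‖gg d k x - gg d k 0‖ + ‖gg d k 0‖ := by
      have := norm_add_le (gg d k x - gg d k 0) (gg d k 0)
      simpa using this
    have h3 : (2 * |kap d| * (m / nu d k)) * (x - 0) ≤ 2 * |kap d| * (m / nu d k) := by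
      have : x - 0 ≤ 1 := by have := hx.2; linarith
      nlinarith
    have h4 : 2 * |kap d| * (m / nu d k) ≤ m / 2 := by
      rw [mul_div_assoc', div_le_iff₀ hnu]
      nlinarith
    rw [hg0] at h2
    linarith
  have hmd : m / nu d k ≤ 2 := by rw [div_le_iff₀ hnu]; linarith
  constructor
  · have h1 := (abs_vv_le d k φ).trans ((hmax' φ hφ).trans hm2)
    have h2 : nu d k * |vv d k φ| ≤ nu d k * 2 := by linarith
    exact le_of_mul_le_mul_left h2 hnu
  · have h1 := hmv φ hφ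
    have h2 : (2 * |kap d| * (m / nu d k)) * (φ - 0) ≤ 4 * |kap d| := by
      have h3 : φ - 0 ≤ 1 := by have := hφ.2; linarith
      have h4 : 0 ≤ φ - 0 := by have := hφ.1; linarith
      have h5 : 2 * |kap d| * (m / nu d k) ≤ 4 * |kap d| := by nlinarith [abs_nonneg (kap d)]
      nlinarith [abs_nonneg (kap d)]
    have h3 : ‖gg d k φ - gg d k 0‖ ≤ 4 * |kap d| := h1.trans h2
    -- multiply by exp(i ν φ)
    have h4 : ((vd d k φ : ℂ) + Complex.I * (nu d k * vv d k φ : ℝ)) -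
        Complex.exp (Complex.I * (nu d k * φ : ℝ)) * (Complex.I * nu d k) =
        Complex.exp (Complex.I * (nu d k * φ : ℝ)) * (gg d k φ - gg d k 0) := by
      have hee : Complex.exp (Complex.I * (nu d k * φ : ℝ)) *
          Complex.exp (-(Complex.I * (nu d k * φ : ℝ))) = 1 := by
        rw [← Complex.exp_add, add_neg_cancel, Complex.exp_zero]
      rw [gg_zero, mul_sub]
      unfold gg
      linear_combination (-((vd d k φ : ℂ) + Complex.I * (nu d k * vv d k φ : ℝ))) * hee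
    have h5 : ‖((vd d k φ : ℂ) + Complex.I * (nu d k * vv d k φ : ℝ)) -
        Complex.exp (Complex.I * (nu d k * φ : ℝ)) * (Complex.I * nu d k)‖ ≤ 4 * |kap d| := by
      rw [h4, norm_mul]
      have : ‖Complex.exp (Complex.I * (nu d k * φ : ℝ))‖ = 1 := by
        rw [mul_comm]
        exact Complex.norm_exp_ofReal_mul_I _
      rw [this, one_mul]
      exact h3
    have h6 := (Complex.abs_im_le_norm _).trans h5
    have h7 : (((vd d k φ : ℂ) + Complex.I * (nu d k * vv d k φ : ℝ)) -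
        Complex.exp (Complex.I * (nu d k * φ : ℝ)) * (Complex.I * nu d k)).im =
        nu d k * (vv d k φ - cos (nu d k * φ)) := by
      generalize nu d k * φ = θ
      rw [mul_comm Complex.I ((θ : ℝ) : ℂ), Complex.exp_mul_I, ← Complex.ofReal_cos,
        ← Complex.ofReal_sin]
      simp only [Complex.sub_im, Complex.add_im, Complex.mul_im, Complex.ofReal_im,
        Complex.ofReal_re, Complex.I_im, Complex.I_re, Complex.add_re, Complex.mul_re]
      ring
    rw [h7, abs_mul, abs_of_pos hnu] at h6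
    rw [le_div_iff₀ hnu, mul_comm]
    exact h6

end Pool.Agent.Lib.MP_6a2c25_an
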