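import Mathlib

set_option autoImplicit false

/-!
# Definitions for MP_6a2c25_an

Real projective space as a quotient of the round sphere, its Laplace-Beltrami operator, radial
eigenfunctions, and the radial maximal estimate tested on finite sums of radial eigenfunctions.
-/

namespace Pool.Agent.Lib.MP_6a2c25_an

open MeasureTheory Metric
open scoped ENNReal NNReal ContDiff

/-- The Euclidean space `ℝ^{d+1}`. -/
abbrev E (d : ℕ) := EuclideanSpace ℝ (Fin (d + 1))

/-- The unit sphere `S^d` of `ℝ^{d+1}`. -/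
abbrev Sph (d : ℕ) := sphere (0 : E d) 1

/-- Real projective space `P^d(ℝ)`: the set of lines through the origin of the Euclidean space
`ℝ^{d+1}`; equivalently the quotient of the unit sphere `S^d` by `±1`. -/
abbrev RP (d : ℕ) := Projectivization ℝ (E d)

/-- The quotient map from the unit sphere onto `P^d(ℝ)`. -/
noncomputable def toRP {d : ℕ} (x : Sph d) : RP d :=
  Projectivization.mk ℝ x.1 (ne_zero_of_mem_unit_sphere x)

/-- The base point `o`: the line spanned by the basis vector `e₀`. -/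
noncomputable def basePoint (d : ℕ) : RP d :=
  Projectivization.mk ℝ (EuclideanSpace.single (0 : Fin (d + 1)) (1 : ℝ)) (by simp)

/-- The geodesic distance of the metric which `P^d(ℝ)` inherits from the round unit sphere:
`arccos |⟨x, y⟩|` for unit vectors `x`, `y` on the two lines. -/
noncomputable def geoDist {d : ℕ} (p q : RP d) : ℝ :=
  Real.arccos (|inner ℝ p.rep q.rep| / (‖p.rep‖ * ‖q.rep‖))

open Classical in
/-- The lift of a function `f` on `P^d(ℝ)` to `ℝ^{d+1} ∖ {0}` which is homogeneous of degree zero,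
`y ↦ f (ℝ y)` (with the irrelevant value `0` at the origin). -/
noncomputable def homLift {d : ℕ} (f : RP d → ℂ) (y : E d) : ℂ :=
  if h : y = 0 then 0 else f (Projectivization.mk ℝ y h)

/-- The Laplace-Beltrami operator of `P^d(ℝ)`: the value at `p` is the Euclidean Laplacian of the
homogeneous lift of degree zero at a unit vector on the line `p`. -/
noncomputable def laplaceBeltrami {d : ℕ} (f : RP d → ℂ) (p : RP d) : ℂ :=
  Laplacian.laplacian (homLift f) (‖p.rep‖⁻¹ • p.rep)

/-- `f` is a smooth function on `P^d(ℝ)`. -/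
def IsSmooth {d : ℕ} (f : RP d → ℂ) : Prop :=
  ContDiffOn ℝ ∞ (homLift f) {0}ᶜ

/-- `f` is radial (`K`-biinvariant): it depends only on the geodesic distance to `o`. -/
def IsRadial {d : ℕ} (f : RP d → ℂ) : Prop :=
  ∀ p q : RP d, geoDist (basePoint d) p = geoDist (basePoint d) q → f p = f q

/-- `f` is a radial eigenfunction of `-Δ` on `P^d(ℝ)` with the eigenvalue `lam ≥ 0`. -/
structure IsRadialEigenfunction {d : ℕ} (f : RP d → ℂ) (lam : ℝ) : Prop where
  smooth : IsSmooth f
  radial : IsRadial f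
  nonneg : 0 ≤ lam
  eigen : ∀ p, laplaceBeltrami f p = -(lam : ℂ) * f p

/-- The surface measure of the unit sphere. -/
noncomputable def sph (d : ℕ) : Measure (Sph d) := (volume : Measure (E d)).toSphere

/-- The surface measure of the unit sphere, normalised to a probability measure. -/
noncomputable def sphereProb (d : ℕ) : Measure (Sph d) := (sph d Set.univ)⁻¹ • sph d

/-- The `L^p` norm on `P^d(ℝ)` with respect to the normalised Riemannian volume, which is the image
of the normalised surface measure of the sphere under the quotient map. -/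
noncomputable def normLp {d : ℕ} {F : Type*} [NormedAddCommGroup F] (p : ℝ≥0∞) (g : RP d → F) :
    ℝ≥0∞ :=
  eLpNorm (fun x => g (toRP x)) p (sphereProb d)

/-- For `f = ∑ Y_j` with `-Δ Y_j = λ_j Y_j` this is
`e^{-itψ(√-Δ)} f = ∑ e^{-itψ(√λ_j)} Y_j` at the point `x`. -/
noncomputable def evolve {d n : ℕ} (ψ : ℝ → ℝ) (lam : Fin n → ℝ) (Y : Fin n → RP d → ℂ) (t : ℝ)
    (x : RP d) : ℂ :=
  ∑ j, Complex.exp (-(Complex.I * (t * ψ (Real.sqrt (lam j)) : ℝ))) * Y j x

/-- For `f = ∑ Y_j` with `-Δ Y_j = λ_j Y_j` this is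
`(I-Δ)^{α/2} f = ∑ (1+λ_j)^{α/2} Y_j` at the point `x`. -/
noncomputable def bessel {d n : ℕ} (α : ℝ) (lam : Fin n → ℝ) (Y : Fin n → RP d → ℂ)
    (x : RP d) : ℂ :=
  ∑ j, (((1 + lam j) ^ (α / 2) : ℝ) : ℂ) * Y j x

/-- The radial maximal estimate `M(ψ, p, α)` on `P^d(ℝ)`, tested only on finite sums
`f = ∑ Y_j` of radial eigenfunctions `-Δ Y_j = λ_j Y_j`. (The supremum over
`0 ≤ t < 2π` is finite: it is bounded by `∑ |Y_j x|`.) -/
def FiniteRadialMaximalEstimate (d : ℕ) (ψ : ℝ → ℝ) (p : ℝ≥0∞) (α : ℝ) : Prop :=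
  ∃ C : ℝ≥0, ∀ (n : ℕ) (lam : Fin n → ℝ) (Y : Fin n → RP d → ℂ),
    (∀ j, IsRadialEigenfunction (Y j) (lam j)) →
    normLp p (fun x : RP d => ⨆ t : Set.Ico (0 : ℝ) (2 * Real.pi), ‖evolve ψ lam Y t x‖) ≤
      C * normLp 2 (bessel α lam Y)

/-- The Schrödinger equation: `ψ(r) = r²`. -/
def schrodinger (r : ℝ) : ℝ := r ^ 2

/-- The Boussinesq equation: `ψ(r) = r √(1 + r²)`. -/
noncomputable def boussinesq (r : ℝ) : ℝ := r * Real.sqrt (1 + r ^ 2)

/-- The beam equation: `ψ(r) = √(1 + r⁴)`. -/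
noncomputable def beam (r : ℝ) : ℝ := Real.sqrt (1 + r ^ 4)

end Pool.Agent.Lib.MP_6a2c25_an
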