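import Mathlib
import Pool.Agent.Lib.MP_6a2c25_an.Defs

set_option autoImplicit false

/-!
Moments of one coordinate with respect to the surface measure of the unit sphere of `ℝ^{d+1}`.
-/

namespace Pool.Agent.Lib.MP_6a2c25_an

open MeasureTheory Measure Set Metric Real

instance (d : ℕ) : IsFiniteMeasure (sph d) := by unfold sph; infer_instance

/-- Even moments of the zeroth coordinate. -/
noncomputable def mom (d i : ℕ) : ℝ := ∫ x : sphere (0 : E d) 1, (x.1 0) ^ (2 * i) ∂(sph d)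

lemma finrank_E (d : ℕ) : Module.finrank ℝ (E d) = d + 1 := by simp

/-- Polar coordinates for the Gaussian moment. -/
lemma gauss_eq_mom (d i : ℕ) : ∫ y : E d, (y 0) ^ (2 * i) * exp (-‖y‖ ^ 2) =
    mom d i * ∫ r in Ioi (0 : ℝ), r ^ (2 * i + d) * exp (-r ^ 2) := by
  calc ∫ y : E d, (y 0) ^ (2 * i) * exp (-‖y‖ ^ 2)
      = ∫ y : ({(0)}ᶜ : Set (E d)), (y.1 0) ^ (2 * i) * exp (-‖y.1‖ ^ 2)
          ∂((volume : Measure (E d)).comap (↑)) := by
        rw [integral_subtype_comap (measurableSet_singleton _).compl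
          fun y : E d => (y 0) ^ (2 * i) * exp (-‖y‖ ^ 2), restrict_compl_singleton]
    _ = ∫ z : sphere (0 : E d) 1 × Ioi (0 : ℝ), (z.1.1 0) ^ (2 * i) *
          (z.2.1 ^ (2 * i) * exp (-z.2.1 ^ 2))
          ∂((sph d).prod (.volumeIoiPow (Module.finrank ℝ (E d) - 1))) := by
        unfold sph
        rw [← (volume : Measure (E d)).measurePreserving_homeomorphUnitSphereProd.integral_comp
          (Homeomorph.measurableEmbedding _)]
        congr 1
        funext y
        have hy : ‖y.1‖ ≠ 0 := norm_ne_zero_iff.mpr y.2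
        simp only [homeomorphUnitSphereProd_apply_fst_coe, homeomorphUnitSphereProd_apply_snd_coe,
          PiLp.smul_apply, smul_eq_mul]
        rw [mul_pow, inv_pow]
        field_simp
    _ = mom d i * ∫ r : Ioi (0 : ℝ), r.1 ^ (2 * i) * exp (-r.1 ^ 2)
          ∂(.volumeIoiPow (Module.finrank ℝ (E d) - 1)) := by
        rw [integral_prod_mul (fun x : sphere (0 : E d) 1 => (x.1 0) ^ (2 * i))
          (fun r : Ioi (0 : ℝ) => r.1 ^ (2 * i) * exp (-r.1 ^ 2))]
        rfl
    _ = mom d i * ∫ r in Ioi (0 : ℝ), r ^ (2 * i + d) * exp (-r ^ 2) := by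
        congr 1
        simp only [Measure.volumeIoiPow, ENNReal.ofReal]
        rw [integral_withDensity_eq_integral_smul,
          integral_subtype_comap measurableSet_Ioi fun a : ℝ =>
            Real.toNNReal (a ^ (Module.finrank ℝ (E d) - 1)) • (a ^ (2 * i) * exp (-a ^ 2)),
          setIntegral_congr_fun measurableSet_Ioi fun x hx => ?_]
        · rw [NNReal.smul_def, Real.coe_toNNReal _ (pow_nonneg (le_of_lt hx) _), finrank_E]
          simp only [Nat.add_sub_cancel, smul_eq_mul]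
          ring
        · exact (measurable_subtype_coe.pow_const _).real_toNNReal

/-- The Gaussian moment as a product. -/
lemma gauss_eq_prod (d i : ℕ) : ∫ y : E d, (y 0) ^ (2 * i) * exp (-‖y‖ ^ 2) =
    (∫ t : ℝ, t ^ (2 * i) * exp (-t ^ 2)) * (∫ t : ℝ, exp (-t ^ 2)) ^ d := by
  rw [← (EuclideanSpace.volume_preserving_symm_measurableEquiv_toLp (Fin (d + 1))).symm.integral_comp']
  have h1 : ∀ y : Fin (d + 1) → ℝ,
      ((MeasurableEquiv.toLp 2 (Fin (d + 1) → ℝ)).symm.symm y 0) ^ (2 * i) *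
        exp (-‖(MeasurableEquiv.toLp 2 (Fin (d + 1) → ℝ)).symm.symm y‖ ^ 2) =
      ∏ j : Fin (d + 1), (fun (j : Fin (d + 1)) (t : ℝ) =>
        (if j = 0 then t ^ (2 * i) else 1) * exp (-t ^ 2)) j (y j) := by
    intro y
    rw [Fin.prod_univ_succ]
    simp only [if_true, Fin.succ_ne_zero, if_false, one_mul]
    rw [EuclideanSpace.norm_sq_eq, Fin.sum_univ_succ, neg_add, exp_add, mul_assoc,
      ← Finset.sum_neg_distrib, exp_sum]
    simp
  refine (integral_congr_ae (Filter.Eventually.of_forall h1)).trans ?_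
  refine (integral_fintype_prod_volume_eq_prod (fun (j : Fin (d + 1)) (t : ℝ) =>
        (if j = 0 then t ^ (2 * i) else 1) * exp (-t ^ 2))).trans ?_
  rw [Fin.prod_univ_succ]
  simp [Fin.succ_ne_zero]

/-- One-dimensional integral over the half line. -/
lemma half_gauss (q : ℕ) : ∫ r in Ioi (0 : ℝ), r ^ q * exp (-r ^ 2) =
    (1 / 2) * Gamma (((q : ℝ) + 1) / 2) := by
  have h := integral_rpow_mul_exp_neg_rpow (p := 2) (q := q) (by norm_num)
    (by have : (0 : ℝ) ≤ q := Nat.cast_nonneg q; linarith)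
  rw [← h]
  refine setIntegral_congr_fun measurableSet_Ioi fun x _ => ?_
  simp only [rpow_natCast, rpow_ofNat]

lemma full_gauss (i : ℕ) : ∫ t : ℝ, t ^ (2 * i) * exp (-t ^ 2) =
    Gamma (((2 * i : ℕ) + 1 : ℝ) / 2) := by
  have h : ∫ t : ℝ, t ^ (2 * i) * exp (-t ^ 2) =
      ∫ t : ℝ, (fun s : ℝ => s ^ (2 * i) * exp (-s ^ 2)) |t| := by
    congr 1
    funext t
    simp only [sq_abs, pow_mul, sq_abs]
  rw [h, integral_comp_abs (f := fun s : ℝ => s ^ (2 * i) * exp (-s ^ 2)), half_gauss]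
  ring

/-- The moment recursion. -/
lemma mom_rec (d i : ℕ) : (2 * i + 1 + d : ℝ) * mom d (i + 1) = (2 * i + 1 : ℝ) * mom d i := by
  have h1 := (gauss_eq_mom d i).symm.trans (gauss_eq_prod d i)
  have h2 := (gauss_eq_mom d (i + 1)).symm.trans (gauss_eq_prod d (i + 1))
  rw [half_gauss, full_gauss] at h1 h2
  have e1 : (((2 * (i + 1) + d : ℕ) : ℝ) + 1) / 2 = (((2 * i + d : ℕ) : ℝ) + 1) / 2 + 1 := by
    push_cast; ring
  have e2 : (((2 * (i + 1) : ℕ) : ℝ) + 1) / 2 = (((2 * i : ℕ) : ℝ) + 1) / 2 + 1 := by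
    push_cast; ring
  have p1 : (0 : ℝ) < (((2 * i + d : ℕ) : ℝ) + 1) / 2 := by positivity
  have p2 : (0 : ℝ) < (((2 * i : ℕ) : ℝ) + 1) / 2 := by positivity
  rw [e1, e2, Gamma_add_one p1.ne', Gamma_add_one p2.ne'] at h2
  have g1 : 0 < Gamma ((((2 * i + d : ℕ) : ℝ) + 1) / 2) := Gamma_pos_of_pos p1
  have h3 : (((2 * i + d : ℕ) : ℝ) + 1) / 2 * mom d (i + 1) *
      (1 / 2 * Gamma ((((2 * i + d : ℕ) : ℝ) + 1) / 2)) =
      (((2 * i : ℕ) : ℝ) + 1) / 2 * mom d i *
      (1 / 2 * Gamma ((((2 * i + d : ℕ) : ℝ) + 1) / 2)) := by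
    linear_combination h2 - (((2 * i : ℕ) : ℝ) + 1) / 2 * h1
  have h4 := mul_right_cancel₀ (by positivity :
    (1 / 2 * Gamma ((((2 * i + d : ℕ) : ℝ) + 1) / 2)) ≠ 0) h3
  push_cast at h4
  linear_combination 2 * h4

lemma mom_zero_pos (d : ℕ) : 0 < mom d 0 := by
  unfold mom
  simp only [mul_zero, pow_zero, integral_const, smul_eq_mul, mul_one]
  unfold sph
  rw [toSphere_real_apply_univ, finrank_E]
  have : 0 < (volume : Measure (E d)).real (ball 0 1) := by
    rw [measureReal_def]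
    exact ENNReal.toReal_pos (measure_ball_pos _ _ one_pos).ne' measure_ball_lt_top.ne
  positivity

end Pool.Agent.Lib.MP_6a2c25_an
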