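import Mathlib
import Pool.Agent.Lib.MP_6a2c25_an.Zonal
import Pool.Agent.Lib.MP_6a2c25_an.Moments
import Pool.Agent.Lib.MP_6a2c25_an.Defs

set_option autoImplicit false

/-!
The zonal polynomials give radial eigenfunctions of the Laplace-Beltrami operator.
-/

namespace Pool.Agent.Lib.MP_6a2c25_an

open Polynomial Metric
open scoped ContDiff Topology

/-- Second derivative along a line. -/
lemma second_deriv_line {V : Type*} [NormedAddCommGroup V] [NormedSpace ℝ V] {G : V → ℝ} {x e : V}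
    (hG : ContDiffAt ℝ 2 G x) {h1 : ℝ → ℝ} {h2 : ℝ}
    (H1 : ∀ᶠ t in 𝓝 (0 : ℝ), HasDerivAt (fun s : ℝ => G (x + s • e)) (h1 t) t)
    (H2 : HasDerivAt h1 h2 0) :
    iteratedFDeriv ℝ 2 G x ![e, e] = h2 := by
  rw [iteratedFDeriv_two_apply]
  simp only [Matrix.cons_val_zero, Matrix.cons_val_one]
  have hdiff : ∀ᶠ y in 𝓝 x, DifferentiableAt ℝ G y := by
    have := hG.eventually (by simp)
    filter_upwards [this] with y hy
    exact hy.differentiableAt (by norm_num)
  have hline : Filter.Tendsto (fun t : ℝ => x + t • e) (𝓝 0) (𝓝 x) := by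
    have : Continuous (fun t : ℝ => x + t • e) := by fun_prop
    have h := this.tendsto 0
    simpa using h
  have hlineD : ∀ t : ℝ, HasDerivAt (fun t : ℝ => x + t • e) e t := by
    intro t
    have := ((hasDerivAt_id t).smul_const e).const_add x
    simpa using this
  have hev : h1 =ᶠ[𝓝 0] fun t : ℝ => fderiv ℝ G (x + t • e) e := by
    filter_upwards [H1, hline.eventually hdiff] with t ht1 ht2
    have h3 : HasDerivAt (fun s : ℝ => G (x + s • e)) (fderiv ℝ G (x + t • e) e) t :=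
      ht2.hasFDerivAt.comp_hasDerivAt t (hlineD t)
    exact ht1.unique h3
  have h4 : DifferentiableAt ℝ (fderiv ℝ G) x := by
    have := hG.fderiv_right (m := 1) (by norm_num)
    exact this.differentiableAt (by norm_num)
  have h5 : HasDerivAt (fun t : ℝ => fderiv ℝ G (x + t • e) e) ((fderiv ℝ (fderiv ℝ G) x e) e) 0 := by
    have h6 : HasFDerivAt (fderiv ℝ G) (fderiv ℝ (fderiv ℝ G) x) (x + (0 : ℝ) • e) := by
      simpa using h4.hasFDerivAt
    have h7 := h6.comp_hasDerivAt (0 : ℝ) (hlineD 0)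
    have h8 := h7.clm_apply (hasDerivAt_const (0 : ℝ) e)
    refine h8.congr_deriv ?_
    simp
  exact (h5.congr_of_eventuallyEq hev).unique H2

/-- The ratio `y₀² / |y|²` along a coordinate line through a unit vector. -/
lemma ratio_line {d : ℕ} {x : E d} (hx : ‖x‖ = 1) (i : Fin (d + 1)) (t : ℝ) :
    ((x + t • EuclideanSpace.basisFun (Fin (d + 1)) ℝ i) 0) ^ 2 /
      ‖x + t • EuclideanSpace.basisFun (Fin (d + 1)) ℝ i‖ ^ 2 =
    (x 0 + (if i = 0 then 1 else 0) * t) ^ 2 / (1 + 2 * x i * t + t ^ 2) := by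
  have h1 : ‖x + t • EuclideanSpace.basisFun (Fin (d + 1)) ℝ i‖ ^ 2 = 1 + 2 * x i * t + t ^ 2 := by
    rw [norm_add_sq_real, hx, inner_smul_right, EuclideanSpace.inner_basisFun_real, norm_smul,
      (EuclideanSpace.basisFun (Fin (d + 1)) ℝ).norm_eq_one, mul_one, Real.norm_eq_abs, sq_abs]
    ring
  rw [h1]
  congr 2
  simp only [PiLp.add_apply, PiLp.smul_apply, smul_eq_mul, EuclideanSpace.basisFun_apply,
    PiLp.single_apply]
  split_ifs with h2 h3 h3
  · ring
  · exact absurd h2.symm h3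
  · exact absurd h3.symm h2
  · ring

/-- The Laplacian of `y ↦ Q(y₀²/|y|²)` at a unit vector. -/
lemma laplacian_ratio {d : ℕ} (Q : ℝ[X]) {x : E d} (hx : ‖x‖ = 1) :
    Laplacian.laplacian (fun y : E d => Q.eval ((y 0) ^ 2 / ‖y‖ ^ 2)) x =
      4 * (x 0) ^ 2 * (1 - (x 0) ^ 2) * (derivative (derivative Q)).eval ((x 0) ^ 2) +
      (2 - 2 * (d + 1) * (x 0) ^ 2) * (derivative Q).eval ((x 0) ^ 2) := by
  have hx0 : x ≠ 0 := by
    intro h
    rw [h, norm_zero] at hx
    exact zero_ne_one hx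
  have hcd : ContDiffAt ℝ 2 (fun y : E d => Q.eval ((y 0) ^ 2 / ‖y‖ ^ 2)) x := by
    have h1 : ContDiffAt ℝ 2 (fun y : E d => (y 0) ^ 2 / ‖y‖ ^ 2) x := by
      apply ContDiffAt.div
      · fun_prop
      · exact (contDiff_norm_sq ℝ).contDiffAt
      · rw [hx]; norm_num
    exact ((Polynomial.contDiff_aeval Q 2).contDiffAt).comp x h1
  rw [InnerProductSpace.laplacian_eq_iteratedFDeriv_orthonormalBasis _
    (EuclideanSpace.basisFun (Fin (d + 1)) ℝ)]
  have key : ∀ i : Fin (d + 1), iteratedFDeriv ℝ 2 (fun y : E d => Q.eval ((y 0) ^ 2 / ‖y‖ ^ 2)) x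
      ![EuclideanSpace.basisFun (Fin (d + 1)) ℝ i, EuclideanSpace.basisFun (Fin (d + 1)) ℝ i] =
      (derivative (derivative Q)).eval ((x 0) ^ 2) *
        (2 * x 0 * (if i = 0 then 1 else 0) - 2 * (x 0) ^ 2 * x i) ^ 2 +
      (derivative Q).eval ((x 0) ^ 2) *
        (2 * (if i = 0 then 1 else 0) - 2 * (x 0) ^ 2 - 8 * x 0 * (if i = 0 then 1 else 0) * x i +
          8 * (x 0) ^ 2 * (x i) ^ 2) := by
    intro i
    set δ : ℝ := if i = 0 then 1 else 0 with hδ
    have hδ2 : δ ^ 2 = δ := by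
      rw [hδ]; split_ifs <;> norm_num
    have hfun : (fun s : ℝ => Q.eval (((x + s • EuclideanSpace.basisFun (Fin (d + 1)) ℝ i) 0) ^ 2 /
        ‖x + s • EuclideanSpace.basisFun (Fin (d + 1)) ℝ i‖ ^ 2)) =
        fun s => Q.eval ((x 0 + δ * s) ^ 2 / (1 + 2 * x i * s + s ^ 2)) := by
      funext s
      rw [ratio_line hx]
    have ha : ∀ t : ℝ, HasDerivAt (fun s => (x 0 + δ * s) ^ 2) (2 * δ * (x 0 + δ * t)) t := by
      intro t
      have h1 : HasDerivAt (fun s => x 0 + δ * s) δ t := by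
        simpa using ((hasDerivAt_id t).const_mul δ).const_add (x 0)
      refine (h1.pow 2).congr_deriv ?_
      simp only [Nat.add_one_sub_one, pow_one]
      push_cast
      ring
    have hq : ∀ t : ℝ, HasDerivAt (fun s => 1 + 2 * x i * s + s ^ 2) (2 * x i + 2 * t) t := by
      intro t
      have h1 : HasDerivAt (fun s => 1 + 2 * x i * s) (2 * x i) t := by
        simpa using ((hasDerivAt_id t).const_mul (2 * x i)).const_add 1
      have h2 : HasDerivAt (fun s : ℝ => s ^ 2) (2 * t) t := by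
        refine ((hasDerivAt_id t).pow 2).congr_deriv ?_
        simp
      exact h1.add h2
    apply second_deriv_line hcd (h1 := fun t =>
      (derivative Q).eval ((x 0 + δ * t) ^ 2 / (1 + 2 * x i * t + t ^ 2)) *
      ((2 * δ * (x 0 + δ * t) * (1 + 2 * x i * t + t ^ 2) -
        (x 0 + δ * t) ^ 2 * (2 * x i + 2 * t)) / (1 + 2 * x i * t + t ^ 2) ^ 2))
    · have hpos : ∀ᶠ t : ℝ in 𝓝 0, 1 + 2 * x i * t + t ^ 2 ≠ 0 := by
        have hc : Continuous (fun t : ℝ => 1 + 2 * x i * t + t ^ 2) := by fun_prop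
        have := hc.continuousAt (x := 0)
        apply this.eventually_ne
        norm_num
      rw [hfun]
      filter_upwards [hpos] with t ht
      have h3 := (ha t).div (hq t) ht
      exact (Q.hasDerivAt _).comp t h3
    · have hq0 : (1 + 2 * x i * 0 + 0 ^ 2 : ℝ) = 1 := by ring
      have hr : HasDerivAt (fun t => (x 0 + δ * t) ^ 2 / (1 + 2 * x i * t + t ^ 2))
          (2 * δ * x 0 - (x 0) ^ 2 * (2 * x i)) 0 := by
        have h3 := (ha 0).div (hq 0) (by rw [hq0]; exact one_ne_zero)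
        refine h3.congr_deriv ?_
        rw [hq0]
        ring
      have hQ1 : HasDerivAt (fun t =>
          (derivative Q).eval ((x 0 + δ * t) ^ 2 / (1 + 2 * x i * t + t ^ 2)))
          ((derivative (derivative Q)).eval ((x 0) ^ 2) *
            (2 * δ * x 0 - (x 0) ^ 2 * (2 * x i))) 0 := by
        have h4 := ((derivative Q).hasDerivAt
          ((x 0 + δ * 0) ^ 2 / (1 + 2 * x i * 0 + 0 ^ 2))).comp (0 : ℝ) hr
        refine h4.congr_deriv ?_
        rw [hq0]
        simp
      have hn : HasDerivAt (fun t => 2 * δ * (x 0 + δ * t) * (1 + 2 * x i * t + t ^ 2) -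
          (x 0 + δ * t) ^ 2 * (2 * x i + 2 * t))
          (2 * δ ^ 2 + 2 * δ * x 0 * (2 * x i) - (2 * δ * x 0 * (2 * x i) + (x 0) ^ 2 * 2)) 0 := by
        have h5 : HasDerivAt (fun t => 2 * δ * (x 0 + δ * t)) (2 * δ * δ) (0 : ℝ) := by
          have : HasDerivAt (fun s => x 0 + δ * s) δ (0 : ℝ) := by
            simpa using ((hasDerivAt_id (0 : ℝ)).const_mul δ).const_add (x 0)
          exact this.const_mul (2 * δ)
        have h6 : HasDerivAt (fun t => 2 * x i + 2 * t) 2 (0 : ℝ) := by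
          simpa using ((hasDerivAt_id (0 : ℝ)).const_mul 2).const_add (2 * x i)
        have h7 := (h5.mul (hq 0)).sub ((ha 0).mul h6)
        refine h7.congr_deriv ?_
        ring
      have hq2 : HasDerivAt (fun t => (1 + 2 * x i * t + t ^ 2) ^ 2) (2 * (2 * x i)) (0 : ℝ) := by
        refine ((hq 0).pow 2).congr_deriv ?_
        rw [hq0]
        simp
      have h8 := hQ1.mul (hn.div hq2 (by rw [hq0]; norm_num))
      refine h8.congr_deriv ?_
      simp only [Pi.div_apply, mul_zero, add_zero, ne_eq, OfNat.ofNat_ne_zero, not_false_eq_true,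
        zero_pow, one_pow, mul_one, div_one]
      linear_combination (2 * (derivative Q).eval ((x 0) ^ 2)) * hδ2
  simp only [key]
  have hsum : ∑ i : Fin (d + 1), (x i) ^ 2 = 1 := by
    have h1 := EuclideanSpace.real_norm_sq_eq x
    rw [hx] at h1
    rw [← h1]
    norm_num
  set A := (derivative (derivative Q)).eval ((x 0) ^ 2)
  set B := (derivative Q).eval ((x 0) ^ 2)
  have hexp : ∀ i : Fin (d + 1), A * (2 * x 0 * (if i = 0 then 1 else 0) - 2 * (x 0) ^ 2 * x i) ^ 2 +
      B * (2 * (if i = 0 then 1 else 0) - 2 * (x 0) ^ 2 - 8 * x 0 * (if i = 0 then 1 else 0) * x i +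
          8 * (x 0) ^ 2 * (x i) ^ 2) =
      (if i = 0 then (A * (4 * (x 0) ^ 2 - 8 * (x 0) ^ 4) + B * (2 - 8 * (x 0) ^ 2)) else 0) +
        (A * 4 * (x 0) ^ 4 + B * 8 * (x 0) ^ 2) * (x i) ^ 2 - B * 2 * (x 0) ^ 2 := by
    intro i
    split_ifs with h
    · subst h; ring
    · ring
  simp only [hexp]
  rw [Finset.sum_sub_distrib, Finset.sum_add_distrib, ← Finset.mul_sum, hsum]
  simp only [Finset.sum_ite_eq', Finset.mem_univ, if_true, Finset.sum_const, Finset.card_univ,
    Fintype.card_fin, nsmul_eq_mul]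
  push_cast
  ring

end Pool.Agent.Lib.MP_6a2c25_an
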