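import Mathlib
import Pool.Agent.Lib.MP_6a2c25_an.Lap

set_option autoImplicit false

/-!
The zonal eigenfunctions on real projective space.
-/

namespace Pool.Agent.Lib.MP_6a2c25_an

open Polynomial Metric
open scoped ContDiff Topology

/-- The zonal eigenfunction. -/
noncomputable def Yz (d k : ℕ) (p : RP d) : ℂ :=
  (((zon d k).eval ((p.rep 0) ^ 2 / ‖p.rep‖ ^ 2) : ℝ) : ℂ)

/-- The square ratio does not depend on the representative. -/
lemma ratio_rep {d : ℕ} (y : E d) (hy : y ≠ 0) :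
    ((Projectivization.mk ℝ y hy).rep 0) ^ 2 / ‖(Projectivization.mk ℝ y hy).rep‖ ^ 2 =
      (y 0) ^ 2 / ‖y‖ ^ 2 := by
  obtain ⟨a, ha⟩ := Projectivization.exists_smul_eq_mk_rep ℝ y hy
  rw [← ha]
  have ha0 : (a : ℝ) ≠ 0 := a.ne_zero
  have h1 : (a • y : E d) = (a : ℝ) • y := rfl
  rw [h1, norm_smul, PiLp.smul_apply, smul_eq_mul, mul_pow, mul_pow, Real.norm_eq_abs, sq_abs]
  have hy' : ‖y‖ ≠ 0 := norm_ne_zero_iff.mpr hy
  field_simp

lemma homLift_Yz {d k : ℕ} {y : E d} (hy : y ≠ 0) :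
    homLift (Yz d k) y = (((zon d k).eval ((y 0) ^ 2 / ‖y‖ ^ 2) : ℝ) : ℂ) := by
  unfold homLift
  rw [dif_neg hy]
  unfold Yz
  rw [ratio_rep]

lemma Yz_toRP {d k : ℕ} (x : sphere (0 : E d) 1) :
    Yz d k (toRP x) = (((zon d k).eval ((x.1 0) ^ 2) : ℝ) : ℂ) := by
  unfold Yz toRP
  rw [ratio_rep]
  have : ‖x.1‖ = 1 := by simp
  rw [this]
  simp

lemma geoDist_basePoint {d : ℕ} (p : RP d) :
    geoDist (basePoint d) p = Real.arccos (|p.rep 0| / ‖p.rep‖) := by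
  unfold geoDist basePoint
  obtain ⟨a, ha⟩ := Projectivization.exists_smul_eq_mk_rep ℝ
    (EuclideanSpace.single (0 : Fin (d + 1)) (1 : ℝ)) (by simp)
  rw [← ha]
  have ha0 : (a : ℝ) ≠ 0 := a.ne_zero
  have h1 : (a • EuclideanSpace.single (0 : Fin (d + 1)) (1 : ℝ) : E d) =
      (a : ℝ) • EuclideanSpace.single (0 : Fin (d + 1)) (1 : ℝ) := rfl
  rw [h1, norm_smul, inner_smul_left, EuclideanSpace.inner_single_left]
  congr 1
  simp only [PiLp.norm_single, norm_one, mul_one, abs_mul,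
    Real.norm_eq_abs, map_one, one_mul, conj_trivial]
  have ha1 : |(a : ℝ)| ≠ 0 := abs_ne_zero.mpr ha0
  have hp : ‖p.rep‖ ≠ 0 := norm_ne_zero_iff.mpr p.rep_nonzero
  field_simp

lemma isRadial_Yz (d k : ℕ) : IsRadial (Yz d k) := by
  intro p q hpq
  rw [geoDist_basePoint, geoDist_basePoint] at hpq
  have hb : ∀ p : RP d, |p.rep 0| / ‖p.rep‖ ∈ Set.Icc (-1 : ℝ) 1 := by
    intro p
    have hp : 0 < ‖p.rep‖ := norm_pos_iff.mpr p.rep_nonzero
    have h0 : 0 ≤ |p.rep 0| / ‖p.rep‖ := by positivity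
    refine ⟨by linarith, ?_⟩
    rw [div_le_one hp]
    have := PiLp.norm_apply_le p.rep 0
    rwa [Real.norm_eq_abs] at this
  have h1 := Real.arccos_injOn (hb p) (hb q) hpq
  have h2 : (p.rep 0) ^ 2 / ‖p.rep‖ ^ 2 = (q.rep 0) ^ 2 / ‖q.rep‖ ^ 2 := by
    have h3 := congrArg (fun z => z ^ 2) h1
    simp only [div_pow, sq_abs] at h3
    exact h3
  unfold Yz
  rw [h2]

lemma isSmooth_Yz (d k : ℕ) : IsSmooth (Yz d k) := by
  have h1 : ContDiffOn ℝ ∞ (fun y : E d => (((zon d k).eval ((y 0) ^ 2 / ‖y‖ ^ 2) : ℝ) : ℂ)) {0}ᶜ := by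
    intro y hy
    apply ContDiffAt.contDiffWithinAt
    have h2 : ContDiffAt ℝ ∞ (fun y : E d => (y 0) ^ 2 / ‖y‖ ^ 2) y := by
      apply ContDiffAt.div
      · fun_prop
      · exact (contDiff_norm_sq ℝ).contDiffAt
      · have : ‖y‖ ≠ 0 := norm_ne_zero_iff.mpr hy
        positivity
    have h3 : ContDiffAt ℝ ∞ (fun y : E d => (zon d k).eval ((y 0) ^ 2 / ‖y‖ ^ 2)) y :=
      ((Polynomial.contDiff_aeval (zon d k) ∞).contDiffAt).comp y h2
    exact (Complex.ofRealCLM.contDiff.contDiffAt).comp y h3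
  refine h1.congr ?_
  intro y hy
  exact homLift_Yz hy

lemma laplaceBeltrami_Yz (d k : ℕ) (p : RP d) :
    laplaceBeltrami (Yz d k) p = -(lam d k : ℂ) * Yz d k p := by
  have hp : ‖p.rep‖ ≠ 0 := norm_ne_zero_iff.mpr p.rep_nonzero
  set x : E d := ‖p.rep‖⁻¹ • p.rep with hx
  have hxn : ‖x‖ = 1 := by
    rw [hx, norm_smul, norm_inv, norm_norm, inv_mul_cancel₀ hp]
  have hx0 : x ≠ 0 := by
    intro h
    rw [h, norm_zero] at hxn
    exact zero_ne_one hxn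
  have hY : Yz d k p = (((zon d k).eval ((x 0) ^ 2) : ℝ) : ℂ) := by
    unfold Yz
    congr 2
    rw [hx, PiLp.smul_apply, smul_eq_mul, mul_pow, inv_pow]
    field_simp
  unfold laplaceBeltrami
  rw [← hx, hY]
  have hev : homLift (Yz d k) =ᶠ[𝓝 x]
      (Complex.ofRealCLM ∘ (fun y : E d => (zon d k).eval ((y 0) ^ 2 / ‖y‖ ^ 2))) := by
    filter_upwards [isOpen_ne.mem_nhds hx0] with y hy
    rw [homLift_Yz hy]
    rfl
  rw [(InnerProductSpace.laplacian_congr_nhds hev).self_of_nhds]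
  have hcd : ContDiffAt ℝ 2 (fun y : E d => (zon d k).eval ((y 0) ^ 2 / ‖y‖ ^ 2)) x := by
    have h1 : ContDiffAt ℝ 2 (fun y : E d => (y 0) ^ 2 / ‖y‖ ^ 2) x := by
      apply ContDiffAt.div
      · fun_prop
      · exact (contDiff_norm_sq ℝ).contDiffAt
      · rw [hxn]; norm_num
    exact ((Polynomial.contDiff_aeval (zon d k) 2).contDiffAt).comp x h1
  rw [hcd.laplacian_CLM_comp_left]
  simp only [Function.comp_apply, Complex.ofRealCLM_apply]
  rw [laplacian_ratio _ hxn]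
  have ode := zon_ode d k ((x 0) ^ 2)
  rw [← Complex.ofReal_neg, ← Complex.ofReal_mul]
  congr 1
  linear_combination ode

lemma lam_nonneg (d k : ℕ) : 0 ≤ lam (d + 1) k := by
  unfold lam
  have h1 : (0 : ℝ) ≤ k := Nat.cast_nonneg k
  have h2 : (0 : ℝ) ≤ d := Nat.cast_nonneg d
  push_cast
  have : (2 * (k : ℝ) + (d + 1) - 1) = 2 * k + d := by ring
  rw [this]
  positivity

lemma isRadialEigenfunction_Yz (d k : ℕ) : IsRadialEigenfunction (Yz (d + 1) k) (lam (d + 1) k) :=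
  ⟨isSmooth_Yz _ _, isRadial_Yz _ _, lam_nonneg _ _, laplaceBeltrami_Yz _ _⟩

end Pool.Agent.Lib.MP_6a2c25_an
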