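import Mathlib
import Pool.Agent.Lib.MP_6a2c25_an.Asymp
import Pool.Agent.Lib.MP_6a2c25_an.Moments

set_option autoImplicit false

/-!
Uniform `L²` bounds and the passage from the sphere to the interval `[0, π/2]`.
-/

namespace Pool.Agent.Lib.MP_6a2c25_an

open Polynomial Real MeasureTheory intervalIntegral Set Metric

lemma cos_nonneg_of {φ : ℝ} (h : φ ∈ Icc 0 (π / 2)) : 0 ≤ cos φ :=
  cos_nonneg_of_neg_pi_div_two_le_of_le (by have := pi_pos; linarith [h.1]) h.2

lemma l2_bound (d k : ℕ) (hk : 4 * |kap d| ≤ nu d k) (hk1 : 1 ≤ k) :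
    ∫ φ in (0 : ℝ)..(π / 2), cos φ ^ (d + 1) * yy (d + 2) k φ ^ 2 ≤ 10 := by
  have hpi := pi_pos
  have hpi4 := pi_le_four
  have hc1 : Continuous (fun φ => cos φ ^ (d + 1) * yy (d + 2) k φ ^ 2) := by
    unfold yy
    fun_prop
  have hc2 : Continuous (fun φ => 4 + 2 * (sin φ * (cos φ ^ (d + 1) * yy (d + 2) k φ ^ 2))) := by
    unfold yy
    fun_prop
  have h1 : ∫ φ in (0 : ℝ)..(π / 2), cos φ ^ (d + 1) * yy (d + 2) k φ ^ 2 ≤
      ∫ φ in (0 : ℝ)..(π / 2), (4 + 2 * (sin φ * (cos φ ^ (d + 1) * yy (d + 2) k φ ^ 2))) := by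
    apply intervalIntegral.integral_mono_on (by positivity) (hc1.intervalIntegrable _ _) (hc2.intervalIntegrable _ _)
    intro φ hφ
    have hcn := cos_nonneg_of hφ
    have hX : 0 ≤ cos φ ^ (d + 1) * yy (d + 2) k φ ^ 2 := by positivity
    have hs : 0 ≤ sin φ := sin_nonneg_of_nonneg_of_le_pi hφ.1 (by linarith [hφ.2])
    rcases le_total φ (π / 4) with h | h
    · have hφ' : φ ∈ Icc 0 (π / 4) := ⟨hφ.1, h⟩
      obtain ⟨h2, _⟩ := asymp d k hk hφ'
      obtain ⟨hc0, _⟩ := cos_bound hφ'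
      have h3 : cos φ ^ (d + 1) * yy (d + 2) k φ ^ 2 = vv d k φ ^ 2 := by
        unfold vv
        rw [mul_pow, ← rpow_natCast (cos φ ^ rho d), ← rpow_mul hc0.le]
        have : rho d * ((2 : ℕ) : ℝ) = ((d + 1 : ℕ) : ℝ) := by
          unfold rho
          push_cast
          ring
        rw [this, rpow_natCast]
      have h4 : vv d k φ ^ 2 ≤ 4 := by
        rw [← sq_abs]
        nlinarith [abs_nonneg (vv d k φ)]
      have h5 : 0 ≤ sin φ * (cos φ ^ (d + 1) * yy (d + 2) k φ ^ 2) := mul_nonneg hs hX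
      rw [h3] at h5 ⊢
      linarith
    · have h2 : 1 / 2 ≤ sin φ := by
        have h3 : sin (π / 4) ≤ sin φ :=
          sin_le_sin_of_le_of_le_pi_div_two (by linarith) hφ.2 h
        rw [sin_pi_div_four] at h3
        have h4 : 1 ≤ √2 := by
          rw [show (1 : ℝ) = √1 by simp]
          exact sqrt_le_sqrt (by norm_num)
        linarith
      nlinarith
  have h2 : ∫ φ in (0 : ℝ)..(π / 2), (4 + 2 * (sin φ * (cos φ ^ (d + 1) * yy (d + 2) k φ ^ 2))) =
      4 * (π / 2) + 2 * ∫ φ in (0 : ℝ)..(π / 2), sin φ * (cos φ ^ (d + 1) * yy (d + 2) k φ ^ 2) := by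
    rw [intervalIntegral.integral_add, intervalIntegral.integral_const, intervalIntegral.integral_const_mul]
    · simp only [sub_zero, smul_eq_mul]
      ring
    · exact continuous_const.intervalIntegrable _ _
    · apply Continuous.intervalIntegrable
      unfold yy
      fun_prop
  have h3 := rellich d k
  have hlam : 0 < lam (d + 2) k := by
    unfold lam
    have : (1 : ℝ) ≤ k := by exact_mod_cast hk1
    have hd : (0 : ℝ) ≤ d := Nat.cast_nonneg d
    push_cast
    nlinarith
  have h4 : ∫ φ in (0 : ℝ)..(π / 2), sin φ * (cos φ ^ (d + 1) * yy (d + 2) k φ ^ 2) ≤ 1 := by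
    set I := ∫ φ in (0 : ℝ)..(π / 2), sin φ * (cos φ ^ (d + 1) * yy (d + 2) k φ ^ 2)
    have hd : (0 : ℝ) ≤ d := Nat.cast_nonneg d
    by_contra hI
    push Not at hI
    have h5 : 0 < 2 * lam (d + 2) k + (d + 2) * d / 2 := by positivity
    have h6 : (2 * lam (d + 2) k + (d + 2) * d / 2) * 1 <
        (2 * lam (d + 2) k + (d + 2) * d / 2) * I := by
      exact mul_lt_mul_of_pos_left hI h5
    rw [h3] at h6
    nlinarith
  rw [h2] at h1
  linarith

/-- The moment integrals on `[0, π/2]`. -/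
noncomputable def im (d i : ℕ) : ℝ := ∫ φ in (0 : ℝ)..(π / 2), (sin φ ^ 2) ^ i * cos φ ^ d

lemma im_rec (d i : ℕ) : (2 * i + 1 + (d + 1) : ℝ) * im d (i + 1) = (2 * i + 1 : ℝ) * im d i := by
  have h1 : ∀ φ ∈ uIcc 0 (π / 2), HasDerivAt (fun φ => sin φ ^ (2 * i + 1) * cos φ ^ (d + 1))
      ((2 * i + 1 : ℝ) * ((sin φ ^ 2) ^ i * cos φ ^ d) -
        (2 * i + 1 + (d + 1) : ℝ) * ((sin φ ^ 2) ^ (i + 1) * cos φ ^ d)) φ := by
    intro φ _
    have h2 := ((hasDerivAt_sin φ).pow (2 * i + 1)).mul ((hasDerivAt_cos φ).pow (d + 1))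
    refine h2.congr_deriv ?_
    simp only [Pi.pow_apply, Nat.add_sub_cancel]
    have hc : cos φ ^ 2 = 1 - sin φ ^ 2 := cos_sq' φ
    push_cast
    have e1 : cos φ ^ (d + 1) = cos φ ^ d * cos φ := pow_succ _ _
    have e2 : sin φ ^ (2 * i) = (sin φ ^ 2) ^ i := pow_mul _ _ _
    have e3 : sin φ ^ (2 * i + 1) = (sin φ ^ 2) ^ i * sin φ := by rw [pow_succ, e2]
    have e4 : (sin φ ^ 2) ^ (i + 1) = (sin φ ^ 2) ^ i * sin φ ^ 2 := pow_succ _ _
    rw [e1, e2, e3, e4]
    linear_combination ((2 * i + 1) * (sin φ ^ 2) ^ i * cos φ ^ d) * hc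
  have hcont : Continuous (fun φ => (2 * i + 1 : ℝ) * ((sin φ ^ 2) ^ i * cos φ ^ d) -
        (2 * i + 1 + (d + 1) : ℝ) * ((sin φ ^ 2) ^ (i + 1) * cos φ ^ d)) := by
    fun_prop
  have h3 := integral_eq_sub_of_hasDerivAt h1 (hcont.intervalIntegrable _ _)
  rw [intervalIntegral.integral_sub, intervalIntegral.integral_const_mul,
    intervalIntegral.integral_const_mul] at h3
  · simp only [cos_pi_div_two, sin_zero, zero_pow (Nat.succ_ne_zero _), mul_zero, zero_mul,
      sub_zero] at h3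
    unfold im
    linarith
  · apply Continuous.intervalIntegrable
    fun_prop
  · apply Continuous.intervalIntegrable
    fun_prop

lemma im_zero_pos (d : ℕ) : 0 < im d 0 := by
  unfold im
  simp only [pow_zero, one_mul]
  have hpi := pi_pos
  apply intervalIntegral_pos_of_pos_on
  · apply Continuous.intervalIntegrable
    fun_prop
  · intro x hx
    exact pow_pos (cos_pos_of_mem_Ioo ⟨by linarith [hx.1], hx.2⟩) _
  · positivity

lemma mom_im (d i : ℕ) : mom (d + 1) i * im d 0 = mom (d + 1) 0 * im d i := by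
  induction i with
  | zero => ring
  | succ i ih =>
    have h1 := mom_rec (d + 1) i
    have h2 := im_rec d i
    have hp : (2 * i + 1 + (d + 1) : ℝ) ≠ 0 := by positivity
    push_cast at h1
    apply mul_left_cancel₀ hp
    linear_combination (im d 0) * h1 - (mom (d + 1) 0) * h2 + (2 * i + 1) * ih

/-- Integration of a polynomial in the square of the zeroth coordinate. -/
lemma integral_poly (d : ℕ) (Q : ℝ[X]) :
    (∫ x : sphere (0 : E (d + 1)) 1, Q.eval ((x.1 0) ^ 2) ∂(sph (d + 1))) * im d 0 =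
      mom (d + 1) 0 * ∫ φ in (0 : ℝ)..(π / 2), Q.eval (sin φ ^ 2) * cos φ ^ d := by
  have hcontS : ∀ P : ℝ[X], Continuous (fun x : sphere (0 : E (d + 1)) 1 =>
      P.eval ((x.1 0) ^ 2)) := by
    intro P
    fun_prop
  have hint : ∀ P : ℝ[X], Integrable (fun x : sphere (0 : E (d + 1)) 1 =>
      P.eval ((x.1 0) ^ 2)) (sph (d + 1)) := by
    intro P
    exact (hcontS P).integrable_of_hasCompactSupport (HasCompactSupport.of_compactSpace _)
  have hint2 : ∀ P : ℝ[X], IntervalIntegrable (fun φ => P.eval (sin φ ^ 2) * cos φ ^ d)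
      volume 0 (π / 2) := by
    intro P
    apply Continuous.intervalIntegrable
    fun_prop
  induction Q using Polynomial.induction_on' with
  | add p q hp hq =>
    simp only [eval_add, add_mul]
    rw [MeasureTheory.integral_add (hint p) (hint q), intervalIntegral.integral_add (hint2 p) (hint2 q),
      add_mul, hp, hq, mul_add]
  | monomial i a =>
    have h1 : ∫ x : sphere (0 : E (d + 1)) 1, (monomial i a).eval ((x.1 0) ^ 2) ∂(sph (d + 1)) =
        a * mom (d + 1) i := by
      unfold mom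
      rw [← MeasureTheory.integral_const_mul]
      congr 1
      funext x
      rw [eval_monomial, ← pow_mul]
    have h2 : ∫ φ in (0 : ℝ)..(π / 2), (monomial i a).eval (sin φ ^ 2) * cos φ ^ d =
        a * im d i := by
      unfold im
      rw [← intervalIntegral.integral_const_mul]
      congr 1
      funext φ
      rw [eval_monomial]
      ring
    rw [h1, h2]
    linear_combination a * mom_im d i

end Pool.Agent.Lib.MP_6a2c25_an
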