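import Mathlib
import Pool.Agent.Lib.MP_6a2c25_an.Asymp

set_option autoImplicit false

/-!
The exponential sum.
-/

namespace Pool.Agent.Lib.MP_6a2c25_an

open Real

/-- `e(x) = exp(-i x)`. -/
noncomputable def ee (x : ℝ) : ℂ := Complex.exp (-(Complex.I * x))

lemma ee_norm (x : ℝ) : ‖ee x‖ = 1 := by
  unfold ee
  rw [← mul_neg, ← Complex.ofReal_neg, mul_comm]
  exact Complex.norm_exp_ofReal_mul_I _

lemma ee_add (x y : ℝ) : ee (x + y) = ee x * ee y := by
  unfold ee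
  rw [← Complex.exp_add]
  congr 1
  push_cast
  ring

lemma ee_re (x : ℝ) : (ee x).re = cos x := by
  unfold ee
  rw [← mul_neg, ← Complex.ofReal_neg, mul_comm, Complex.exp_ofReal_mul_I_re, cos_neg]

lemma ee_sub_le (x y : ℝ) : ‖ee x - ee y‖ ≤ |x - y| := by
  have h1 : ee x - ee y = ee y * (Complex.exp (Complex.I * ((-(x - y) : ℝ) : ℂ)) - 1) := by
    rw [mul_sub, mul_one]
    congr 1
    have : ee x = ee (y + (x - y)) := by congr 1; ring
    rw [this, ee_add]
    congr 1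
    unfold ee
    congr 1
    push_cast
    ring
  rw [h1, norm_mul, ee_norm, one_mul]
  refine (Real.norm_exp_I_mul_ofReal_sub_one_le).trans ?_
  rw [Real.norm_eq_abs, abs_neg]

lemma ee_cos (x : ℝ) : (cos x : ℂ) = (ee (-x) + ee x) / 2 := by
  unfold ee
  rw [Complex.ofReal_cos, Complex.cos]
  push_cast
  congr 2
  · congr 1
    ring
  · congr 1
    ring

/-- Summation by parts. -/
lemma abel (q : ℂ) (b : ℕ → ℂ) (M : ℕ) :
    (1 - q) * ∑ j ∈ Finset.range M, q ^ j * b j =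
      b 0 - q ^ M * b M + ∑ j ∈ Finset.range M, q ^ (j + 1) * (b (j + 1) - b j) := by
  induction M with
  | zero => simp
  | succ M ih =>
    rw [Finset.sum_range_succ, Finset.sum_range_succ, mul_add, ih]
    ring

lemma sum_odd (M : ℕ) : ∑ j ∈ Finset.range M, (2 * (j : ℝ) + 1) = (M : ℝ) ^ 2 := by
  induction M with
  | zero => simp
  | succ M ih => rw [Finset.sum_range_succ, ih]; push_cast; ring

/-- The oscillating sum is bounded. -/
lemma sum_B (M : ℕ) {φ t : ℝ} (ht : 0 ≤ t) (hMt : 4 * (M : ℝ) ^ 2 * t ≤ 1 / 4)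
    (hφ : cos (4 * φ) ≤ 0) :
    ‖∑ j ∈ Finset.range M, ee (4 * j * φ + 4 * (j : ℝ) ^ 2 * t)‖ ≤ 3 := by
  set q := ee (4 * φ) with hq
  set b : ℕ → ℂ := fun j => ee (4 * (j : ℝ) ^ 2 * t) with hb
  have h1 : ∑ j ∈ Finset.range M, ee (4 * j * φ + 4 * (j : ℝ) ^ 2 * t) =
      ∑ j ∈ Finset.range M, q ^ j * b j := by
    apply Finset.sum_congr rfl
    intro j _
    rw [ee_add]
    congr 1
    rw [hq]
    unfold ee
    rw [← Complex.exp_nat_mul]
    congr 1
    push_cast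
    ring
  have hq1 : ‖q‖ = 1 := ee_norm _
  have h2 : ‖(1 - q) * ∑ j ∈ Finset.range M, q ^ j * b j‖ ≤ 3 := by
    rw [abel]
    have h3 : ‖∑ j ∈ Finset.range M, q ^ (j + 1) * (b (j + 1) - b j)‖ ≤ 1 / 4 := by
      refine (norm_sum_le _ _).trans ?_
      have h4 : ∀ j ∈ Finset.range M, ‖q ^ (j + 1) * (b (j + 1) - b j)‖ ≤
          4 * t * (2 * (j : ℝ) + 1) := by
        intro j _
        rw [norm_mul, norm_pow, hq1, one_pow, one_mul]
        refine (ee_sub_le _ _).trans ?_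
        have : 4 * ((j + 1 : ℕ) : ℝ) ^ 2 * t - 4 * (j : ℝ) ^ 2 * t = 4 * t * (2 * (j : ℝ) + 1) := by
          push_cast
          ring
        rw [this, abs_of_nonneg (by positivity)]
      refine (Finset.sum_le_sum h4).trans ?_
      rw [← Finset.mul_sum, sum_odd]
      linarith
    calc ‖b 0 - q ^ M * b M + ∑ j ∈ Finset.range M, q ^ (j + 1) * (b (j + 1) - b j)‖
        ≤ ‖b 0 - q ^ M * b M‖ + ‖∑ j ∈ Finset.range M, q ^ (j + 1) * (b (j + 1) - b j)‖ :=
          norm_add_le _ _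
      _ ≤ (‖b 0‖ + ‖q ^ M * b M‖) + 1 / 4 := add_le_add (norm_sub_le _ _) h3
      _ = 2 + 1 / 4 := by
          rw [norm_mul, norm_pow, hq1, one_pow, one_mul]
          simp only [hb, ee_norm]
          norm_num
      _ ≤ 3 := by norm_num
  have h3 : 1 ≤ ‖1 - q‖ := by
    have h4 := Complex.abs_re_le_norm (1 - q)
    have h5 : (1 - q).re = 1 - cos (4 * φ) := by
      rw [Complex.sub_re, Complex.one_re, hq, ee_re]
    rw [h5] at h4
    exact le_trans (by linarith) ((le_abs_self _).trans h4)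
  rw [h1]
  rw [norm_mul] at h2
  nlinarith [norm_nonneg (∑ j ∈ Finset.range M, q ^ j * b j)]

/-- The stationary sum is large. -/
lemma sum_A (M : ℕ) {t : ℝ} (ht : 0 ≤ t) (hMt : 4 * (M : ℝ) ^ 2 * t ≤ 1 / 4) :
    3 / 4 * (M : ℝ) ≤ ‖∑ j ∈ Finset.range M, ee (4 * (j : ℝ) ^ 2 * t)‖ := by
  have h1 : 3 / 4 * (M : ℝ) ≤ (∑ j ∈ Finset.range M, ee (4 * (j : ℝ) ^ 2 * t)).re := by
    rw [Complex.re_sum]
    have h2 : ∀ j ∈ Finset.range M, (3 / 4 : ℝ) ≤ (ee (4 * (j : ℝ) ^ 2 * t)).re := by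
      intro j hj
      rw [ee_re]
      have hj' : (j : ℝ) ≤ M := by exact_mod_cast (Finset.mem_range.mp hj).le
      have h3 : 4 * (j : ℝ) ^ 2 * t ≤ 1 / 4 := by
        refine le_trans ?_ hMt
        gcongr
      have h4 : 0 ≤ 4 * (j : ℝ) ^ 2 * t := by positivity
      have h5 := one_sub_sq_div_two_le_cos (x := 4 * (j : ℝ) ^ 2 * t)
      nlinarith
    calc 3 / 4 * (M : ℝ) = ∑ j ∈ Finset.range M, (3 / 4 : ℝ) := by
          rw [Finset.sum_const, Finset.card_range, nsmul_eq_mul]; ring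
      _ ≤ _ := Finset.sum_le_sum h2
  exact h1.trans ((le_abs_self _).trans (Complex.abs_re_le_norm _))

/-- The key lower bound. -/
lemma main_lower (d M : ℕ) (hM : 13 + 4 * |kap d| ≤ M) {φ : ℝ} (h1 : π / 8 ≤ φ)
    (h2 : φ ≤ 3 * π / 16) (ψ : ℕ → ℝ)
    (hψ : ∀ j, |ψ j - lam (d + 2) (4 * M ^ 2 + j)| ≤ 1) :
    (M : ℝ) / 4 ≤ ‖∑ j ∈ Finset.range M,
      ee (φ / (2 * nu d (4 * M ^ 2)) * ψ j) * (yy (d + 2) (4 * M ^ 2 + j) φ : ℂ)‖ := by
  have hpi := pi_pos
  have hpi4 := pi_le_four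
  have hpi32 : π < 3.15 := pi_lt_d2
  set N := 4 * M ^ 2 with hN
  set ν := nu d N with hν
  have hνpos : 0 < ν := nu_pos d N
  set t := φ / (2 * ν) with ht
  have hκ := abs_nonneg (kap d)
  have hM1 : (13 : ℝ) ≤ M := by linarith
  have hνN : 8 * (M : ℝ) ^ 2 ≤ ν := by
    rw [hν]
    unfold nu
    have := rho_pos d
    rw [hN]
    push_cast
    nlinarith
  have hφ0 : 0 ≤ φ := by linarith [div_pos hpi (by norm_num : (0 : ℝ) < 8)]
  have hφ1 : φ ≤ 1 := by linarith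
  have hφ' : φ ∈ Set.Icc 0 (π / 4) := ⟨hφ0, by linarith⟩
  have ht0 : 0 ≤ t := by positivity
  have htν : 2 * ν * t = φ := by rw [ht]; field_simp
  have hMt : 4 * (M : ℝ) ^ 2 * t ≤ 1 / 4 := by nlinarith
  have htM : t ≤ 1 / (16 * M) := by
    rw [le_div_iff₀ (by positivity)]
    nlinarith
  have hcos4 : cos (4 * φ) ≤ 0 := by
    apply cos_nonpos_of_pi_div_two_le_of_le
    · linarith
    · linarith
  obtain ⟨hc0, _⟩ := cos_bound hφ'
  have hw0 : 0 < cos φ ^ rho d := rpow_pos_of_pos hc0 _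
  have hw1 : cos φ ^ rho d ≤ 1 := rpow_le_one hc0.le (cos_le_one _) (rho_pos d).le
  -- Step 1: pass to vv
  have hstep1 : ‖∑ j ∈ Finset.range M, ee (t * ψ j) * (vv d (N + j) φ : ℂ)‖ ≤
      ‖∑ j ∈ Finset.range M, ee (t * ψ j) * (yy (d + 2) (N + j) φ : ℂ)‖ := by
    have : ∑ j ∈ Finset.range M, ee (t * ψ j) * (vv d (N + j) φ : ℂ) =
        ((cos φ ^ rho d : ℝ) : ℂ) *
          ∑ j ∈ Finset.range M, ee (t * ψ j) * (yy (d + 2) (N + j) φ : ℂ) := by
      rw [Finset.mul_sum]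
      apply Finset.sum_congr rfl
      intro j _
      unfold vv
      push_cast
      ring
    rw [this, norm_mul, Complex.norm_real, Real.norm_eq_abs, abs_of_pos hw0]
    exact mul_le_of_le_one_left (norm_nonneg _) hw1
  -- Step 2: replace by cosines
  have hνj : ∀ j : ℕ, nu d (N + j) = ν + 2 * j := by
    intro j
    rw [hν]
    unfold nu
    push_cast
    ring
  have hstep2 : ‖∑ j ∈ Finset.range M, ee (t * ψ j) * (vv d (N + j) φ : ℂ) -
      ∑ j ∈ Finset.range M, ee (t * lam (d + 2) (N + j)) * (cos (nu d (N + j) * φ) : ℂ)‖ ≤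
      (1 + 4 * |kap d|) / 8 := by
    rw [← Finset.sum_sub_distrib]
    refine (norm_sum_le _ _).trans ?_
    have h3 : ∀ j ∈ Finset.range M, ‖ee (t * ψ j) * (vv d (N + j) φ : ℂ) -
        ee (t * lam (d + 2) (N + j)) * (cos (nu d (N + j) * φ) : ℂ)‖ ≤
        (1 + 4 * |kap d|) / (8 * M) := by
      intro j _
      have hνj' : 8 * (M : ℝ) ^ 2 ≤ nu d (N + j) := by
        rw [hνj]
        have : (0 : ℝ) ≤ j := Nat.cast_nonneg j
        linarith
      obtain ⟨ha1, ha2⟩ := asymp d (N + j) (by nlinarith) hφ'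
      have e1 : ee (t * ψ j) * (vv d (N + j) φ : ℂ) -
          ee (t * lam (d + 2) (N + j)) * (cos (nu d (N + j) * φ) : ℂ) =
          (ee (t * ψ j) - ee (t * lam (d + 2) (N + j))) * (vv d (N + j) φ : ℂ) +
          ee (t * lam (d + 2) (N + j)) * ((vv d (N + j) φ - cos (nu d (N + j) * φ) : ℝ) : ℂ) := by
        push_cast
        ring
      rw [e1]
      refine (norm_add_le _ _).trans ?_
      rw [norm_mul, norm_mul, ee_norm, one_mul, Complex.norm_real, Complex.norm_real,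
        Real.norm_eq_abs, Real.norm_eq_abs]
      have e2 : ‖ee (t * ψ j) - ee (t * lam (d + 2) (N + j))‖ ≤ t := by
        refine (ee_sub_le _ _).trans ?_
        rw [← mul_sub, abs_mul, abs_of_nonneg ht0]
        exact mul_le_of_le_one_right ht0 (hψ j)
      have e3 : ‖ee (t * ψ j) - ee (t * lam (d + 2) (N + j))‖ * |vv d (N + j) φ| ≤ t * 2 :=
        mul_le_mul e2 ha1 (abs_nonneg _) ht0
      have e4 : 4 * |kap d| / nu d (N + j) ≤ 4 * |kap d| / (8 * M) := by
        apply div_le_div_of_nonneg_left (by positivity) (by positivity)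
        nlinarith
      have e5 : t * 2 ≤ 1 / (8 * M) := by
        have : 1 / (8 * (M : ℝ)) = 2 * (1 / (16 * M)) := by
          field_simp
          norm_num
        rw [this]
        linarith
      have e6 : (1 + 4 * |kap d|) / (8 * M) = 1 / (8 * M) + 4 * |kap d| / (8 * M) := by
        rw [add_div]
      rw [e6]
      exact add_le_add (e3.trans e5) (ha2.trans e4)
    refine (Finset.sum_le_sum h3).trans ?_
    rw [Finset.sum_const, Finset.card_range, nsmul_eq_mul]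
    have hMne : (M : ℝ) ≠ 0 := by positivity
    apply le_of_eq
    field_simp
  -- Step 3: the cosine sum
  have hstep3 : 3 / 8 * (M : ℝ) - 3 / 2 ≤ ‖∑ j ∈ Finset.range M,
      ee (t * lam (d + 2) (N + j)) * (cos (nu d (N + j) * φ) : ℂ)‖ := by
    have h3 : ∑ j ∈ Finset.range M,
        ee (t * lam (d + 2) (N + j)) * (cos (nu d (N + j) * φ) : ℂ) =
        (ee (t * ν ^ 2 - t * rho d ^ 2 - ν * φ) *
            ∑ j ∈ Finset.range M, ee (4 * (j : ℝ) ^ 2 * t) +
          ee (t * ν ^ 2 - t * rho d ^ 2 + ν * φ) *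
            ∑ j ∈ Finset.range M, ee (4 * j * φ + 4 * (j : ℝ) ^ 2 * t)) / 2 := by
      rw [Finset.mul_sum, Finset.mul_sum, ← Finset.sum_add_distrib, Finset.sum_div]
      apply Finset.sum_congr rfl
      intro j _
      rw [ee_cos, mul_div_assoc', mul_add, ← ee_add, ← ee_add, ← ee_add, ← ee_add]
      congr 3
      · rw [lam_eq, hνj]
        linear_combination 2 * (j : ℝ) * htν
      · rw [lam_eq, hνj]
        linear_combination 2 * (j : ℝ) * htν
    rw [h3, norm_div]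
    have hA := sum_A M ht0 hMt
    have hB := sum_B M ht0 hMt hcos4
    set A := ∑ j ∈ Finset.range M, ee (4 * (j : ℝ) ^ 2 * t)
    set B := ∑ j ∈ Finset.range M, ee (4 * j * φ + 4 * (j : ℝ) ^ 2 * t)
    have h4 : ‖A‖ - ‖B‖ ≤ ‖ee (t * ν ^ 2 - t * rho d ^ 2 - ν * φ) * A +
        ee (t * ν ^ 2 - t * rho d ^ 2 + ν * φ) * B‖ := by
      have := norm_sub_norm_le (ee (t * ν ^ 2 - t * rho d ^ 2 - ν * φ) * A)
        (-(ee (t * ν ^ 2 - t * rho d ^ 2 + ν * φ) * B))
      rw [norm_neg, norm_mul, norm_mul, ee_norm, ee_norm, one_mul, one_mul, sub_neg_eq_add] at this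
      exact this
    have h5 : ‖(2 : ℂ)‖ = 2 := by simp
    rw [h5, le_div_iff₀ (by norm_num)]
    linarith
  have hfin := norm_sub_norm_le
    (∑ j ∈ Finset.range M, ee (t * lam (d + 2) (N + j)) * (cos (nu d (N + j) * φ) : ℂ))
    (∑ j ∈ Finset.range M, ee (t * lam (d + 2) (N + j)) * (cos (nu d (N + j) * φ) : ℂ) -
      ∑ j ∈ Finset.range M, ee (t * ψ j) * (vv d (N + j) φ : ℂ))
  rw [sub_sub_cancel, norm_sub_rev (∑ j ∈ Finset.range M,
    ee (t * lam (d + 2) (N + j)) * (cos (nu d (N + j) * φ) : ℂ))] at hfin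
  linarith

end Pool.Agent.Lib.MP_6a2c25_an
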