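import Mathlib
import Pool.Agent.Lib.MP_6a2c25_an.Eig
import Pool.Agent.Lib.MP_6a2c25_an.Phase
import Pool.Agent.Lib.MP_6a2c25_an.LTwo

set_option autoImplicit false

/-!
The failure of the radial maximal estimate below regularity `1/4`.
-/

namespace Pool.Agent.Lib.MP_6a2c25_an

open Polynomial MeasureTheory Metric Real
open scoped ENNReal NNReal Topology

lemma mass_ne_zero (d : ℕ) : (sph d) Set.univ ≠ 0 := by
  unfold sph
  rw [Measure.toSphere_apply_univ, finrank_E]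
  have : (volume : Measure (E d)) (ball 0 1) ≠ 0 := (measure_ball_pos _ _ one_pos).ne'
  have h2 : ((d + 1 : ℕ) : ℝ≥0∞) ≠ 0 := by
    exact_mod_cast Nat.succ_ne_zero d
  exact mul_ne_zero h2 this

lemma mass_ne_top (d : ℕ) : (sph d) Set.univ ≠ ⊤ := measure_ne_top _ _

instance (d : ℕ) : IsProbabilityMeasure (sphereProb d) := by
  constructor
  unfold sphereProb
  rw [Measure.smul_apply, smul_eq_mul]
  exact ENNReal.inv_mul_cancel (mass_ne_zero d) (mass_ne_top d)

lemma mom_zero_eq (d : ℕ) : mom d 0 = ((sph d) Set.univ).toReal := by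
  unfold mom
  simp [measureReal_def]

/-- Integration against the normalised measure. -/
lemma integral_sphereProb (d : ℕ) (g : sphere (0 : E d) 1 → ℝ) :
    ∫ x, g x ∂(sphereProb d) = (mom d 0)⁻¹ * ∫ x, g x ∂(sph d) := by
  unfold sphereProb
  rw [integral_smul_measure, mom_zero_eq, ENNReal.toReal_inv, smul_eq_mul]

/-- The open band on the sphere. -/
def band (d : ℕ) : Set (sphere (0 : E d) 1) :=
  {x | sin (π / 8) < x.1 0 ∧ x.1 0 < sin (3 * π / 16)}

lemma isOpen_band (d : ℕ) : IsOpen (band d) := by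
  have hc : Continuous (fun x : sphere (0 : E d) 1 => x.1 0) := by fun_prop
  exact (isOpen_lt continuous_const hc).inter (isOpen_lt hc continuous_const)

lemma band_nonempty (d : ℕ) : (band (d + 1)).Nonempty := by
  have hpi := pi_pos
  let φ : ℝ := 5 * π / 32
  have h1 : sin (π / 8) < sin φ := sin_lt_sin_of_lt_of_le_pi_div_two (by linarith) (by
    show 5 * π / 32 ≤ π / 2; linarith) (by show π / 8 < 5 * π / 32; linarith)
  have h2 : sin φ < sin (3 * π / 16) := sin_lt_sin_of_lt_of_le_pi_div_two (by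
    show -(π / 2) ≤ 5 * π / 32; linarith) (by linarith) (by show 5 * π / 32 < 3 * π / 16; linarith)
  let x : E (d + 1) := sin φ • EuclideanSpace.single (0 : Fin (d + 1 + 1)) (1 : ℝ) +
    cos φ • EuclideanSpace.single (1 : Fin (d + 1 + 1)) (1 : ℝ)
  have hx0 : x 0 = sin φ := by
    simp [x]
  have hx : ‖x‖ = 1 := by
    have h3 : ‖x‖ ^ 2 = 1 := by
      have h4 : x = sin φ • EuclideanSpace.single (0 : Fin (d + 1 + 1)) (1 : ℝ) +
        cos φ • EuclideanSpace.single (1 : Fin (d + 1 + 1)) (1 : ℝ) := rfl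
      rw [h4, norm_add_sq_real, inner_smul_left, inner_smul_right, EuclideanSpace.inner_single_left,
        norm_smul, norm_smul]
      simp [sin_sq_add_cos_sq]
    nlinarith [norm_nonneg x]
  exact ⟨⟨x, by simpa using hx⟩, by show sin (π / 8) < x 0 ∧ x 0 < sin (3 * π / 16); rw [hx0]; exact ⟨h1, h2⟩⟩

lemma band_pos (d : ℕ) : 0 < (sphereProb (d + 1)) (band (d + 1)) := by
  unfold sphereProb
  rw [Measure.smul_apply, smul_eq_mul]
  apply ENNReal.mul_pos
  · exact ENNReal.inv_ne_zero.mpr (mass_ne_top _)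
  · unfold sph
    exact ((isOpen_band _).measure_pos _ (band_nonempty d)).ne'

/-- The combined polynomial. -/
noncomputable def FF (d M : ℕ) (c : ℕ → ℝ) : ℝ[X] :=
  ∑ j ∈ Finset.range M, C (c j) * zon (d + 2) (4 * M ^ 2 + j)

lemma FF_eval (d M : ℕ) (c : ℕ → ℝ) (w : ℝ) : (FF d M c).eval w =
    ∑ j ∈ Finset.range M, c j * (zon (d + 2) (4 * M ^ 2 + j)).eval w := by
  unfold FF
  rw [eval_finsetSum]
  simp

lemma lam_ne (d : ℕ) {j k : ℕ} (h : j ≠ k) : lam (d + 1 + 1) j ≠ lam (d + 1 + 1) k := by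
  have key : ∀ a b : ℕ, a < b → lam (d + 1 + 1) a < lam (d + 1 + 1) b := by
    intro a b hab
    unfold lam
    have h1 : (a : ℝ) + 1 ≤ b := by exact_mod_cast hab
    have h2 : (0 : ℝ) ≤ a := Nat.cast_nonneg a
    have h3 : (0 : ℝ) ≤ d := Nat.cast_nonneg d
    push_cast
    nlinarith
  rcases lt_or_gt_of_ne h with h' | h'
  · exact (key _ _ h').ne
  · exact (key _ _ h').ne'

/-- The `L²` bound for the combination. -/
lemma FF_l2 (d M : ℕ) (hM : 13 + 4 * |kap d| ≤ M) (c : ℕ → ℝ) :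
    ∫ φ in (0 : ℝ)..(π / 2), ((FF d M c) ^ 2).eval (sin φ ^ 2) * cos φ ^ (d + 1) ≤
      10 * ∑ j ∈ Finset.range M, c j ^ 2 := by
  have hexp : ∀ φ : ℝ, ((FF d M c) ^ 2).eval (sin φ ^ 2) * cos φ ^ (d + 1) =
      ∑ j ∈ Finset.range M, ∑ k ∈ Finset.range M, (c j * c k) *
        (cos φ ^ (d + 1) * (yy (d + 2) (4 * M ^ 2 + j) φ * yy (d + 2) (4 * M ^ 2 + k) φ)) := by
    intro φ
    rw [eval_pow, FF_eval, sq, Finset.sum_mul_sum, Finset.sum_mul]
    apply Finset.sum_congr rfl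
    intro j _
    rw [Finset.sum_mul]
    apply Finset.sum_congr rfl
    intro k _
    unfold yy
    ring
  simp_rw [hexp]
  have hint : ∀ j k : ℕ, IntervalIntegrable (fun φ => (c j * c k) *
        (cos φ ^ (d + 1) * (yy (d + 2) (4 * M ^ 2 + j) φ * yy (d + 2) (4 * M ^ 2 + k) φ)))
        volume 0 (π / 2) := by
    intro j k
    apply Continuous.intervalIntegrable
    unfold yy
    fun_prop
  rw [intervalIntegral.integral_finsetSum]
  swap
  · intro j _
    apply Continuous.intervalIntegrable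
    unfold yy
    fun_prop
  rw [Finset.mul_sum]
  apply Finset.sum_le_sum
  intro j hj
  rw [intervalIntegral.integral_finsetSum (fun k _ => hint j k)]
  rw [Finset.sum_eq_single j]
  · rw [intervalIntegral.integral_const_mul]
    have hMpos : (13 : ℝ) ≤ M := by linarith [abs_nonneg (kap d)]
    have hN1 : 1 ≤ 4 * M ^ 2 + j := by
      have : 1 ≤ M := by
        have : (1 : ℝ) ≤ M := by linarith
        exact_mod_cast this
      nlinarith
    have hk : 4 * |kap d| ≤ nu d (4 * M ^ 2 + j) := by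
      unfold nu
      have := rho_pos d
      have hj0 : (0 : ℝ) ≤ j := Nat.cast_nonneg j
      push_cast
      nlinarith
    have h1 := l2_bound d (4 * M ^ 2 + j) hk hN1
    have h2 : ∫ φ in (0 : ℝ)..(π / 2), cos φ ^ (d + 1) *
        (yy (d + 2) (4 * M ^ 2 + j) φ * yy (d + 2) (4 * M ^ 2 + j) φ) ≤ 10 := by
      refine le_trans (le_of_eq ?_) h1
      congr 1
      funext φ
      ring
    have h3 : 0 ≤ c j * c j := mul_self_nonneg _
    nlinarith
  · intro k _ hkj
    rw [intervalIntegral.integral_const_mul]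
    have := yy_orthogonal (d + 1) (4 * M ^ 2 + j) (4 * M ^ 2 + k) (lam_ne d (by omega))
    rw [this, mul_zero]
  · intro h
    exact absurd hj h

/-- Upper bound for the `H^α` norm of the data. -/
lemma upper (d M : ℕ) (hM : 13 + 4 * |kap d| ≤ M) (c : ℕ → ℝ) :
    normLp 2 (fun x : RP (d + 2) => ∑ j : Fin M, ((c j : ℝ) : ℂ) * Yz (d + 2) (4 * M ^ 2 + j) x) ≤
      ENNReal.ofReal (√(10 / im (d + 1) 0 * ∑ j ∈ Finset.range M, c j ^ 2)) := by
  unfold normLp
  have hfun : (fun x : sphere (0 : E (d + 2)) 1 => ∑ j : Fin M, ((c j : ℝ) : ℂ) *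
      Yz (d + 2) (4 * M ^ 2 + j) (toRP x)) =
      fun x => (((FF d M c).eval ((x.1 0) ^ 2) : ℝ) : ℂ) := by
    funext x
    rw [FF_eval, ← Fin.sum_univ_eq_sum_range
      (fun j => c j * (zon (d + 2) (4 * M ^ 2 + j)).eval ((x.1 0) ^ 2))]
    push_cast
    apply Finset.sum_congr rfl
    intro j _
    rw [Yz_toRP]
  rw [hfun]
  have hcont : Continuous (fun x : sphere (0 : E (d + 2)) 1 =>
      (((FF d M c).eval ((x.1 0) ^ 2) : ℝ) : ℂ)) := by
    apply Complex.continuous_ofReal.comp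
    fun_prop
  have hmem : MemLp (fun x : sphere (0 : E (d + 2)) 1 =>
      (((FF d M c).eval ((x.1 0) ^ 2) : ℝ) : ℂ)) 2 (sphereProb (d + 2)) :=
    hcont.memLp_of_hasCompactSupport (HasCompactSupport.of_compactSpace _)
  rw [hmem.eLpNorm_eq_integral_rpow_norm (by norm_num) (by norm_num)]
  apply ENNReal.ofReal_le_ofReal
  have h2 : (2 : ℝ≥0∞).toReal = 2 := by norm_num
  rw [h2, sqrt_eq_rpow]
  have hI := im_zero_pos (d + 1)
  have hm := mom_zero_pos (d + 2)
  have hval : ∫ x : sphere (0 : E (d + 2)) 1, ‖(((FF d M c).eval ((x.1 0) ^ 2) : ℝ) : ℂ)‖ ^ (2 : ℝ)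
      ∂(sphereProb (d + 2)) ≤ 10 / im (d + 1) 0 * ∑ j ∈ Finset.range M, c j ^ 2 := by
    have h3 : ∀ x : sphere (0 : E (d + 2)) 1,
        ‖(((FF d M c).eval ((x.1 0) ^ 2) : ℝ) : ℂ)‖ ^ (2 : ℝ) =
        ((FF d M c) ^ 2).eval ((x.1 0) ^ 2) := by
      intro x
      rw [Complex.norm_real, Real.norm_eq_abs, rpow_ofNat, sq_abs, eval_pow]
    simp_rw [h3]
    rw [integral_sphereProb]
    have h4 := integral_poly (d + 1) ((FF d M c) ^ 2)
    have h5 := FF_l2 d M hM c
    set A := ∫ x : sphere (0 : E (d + 2)) 1, ((FF d M c) ^ 2).eval ((x.1 0) ^ 2) ∂(sph (d + 2))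
    set B := ∫ φ in (0 : ℝ)..(π / 2), ((FF d M c) ^ 2).eval (sin φ ^ 2) * cos φ ^ (d + 1)
    have h6 : (mom (d + 2) 0)⁻¹ * A = B / im (d + 1) 0 := by
      rw [eq_div_iff hI.ne', mul_assoc]
      rw [show d + 1 + 1 = d + 2 by ring] at h4
      have h7 : A * im (d + 1) 0 = mom (d + 2) 0 * B := h4
      rw [h7]
      field_simp
    rw [h6, div_mul_eq_mul_div]
    gcongr
  have h8 : (0 : ℝ) ≤ ∫ x : sphere (0 : E (d + 2)) 1,
      ‖(((FF d M c).eval ((x.1 0) ^ 2) : ℝ) : ℂ)‖ ^ (2 : ℝ) ∂(sphereProb (d + 2)) := by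
    apply integral_nonneg
    intro x
    positivity
  rw [show (2 : ℝ)⁻¹ = 1 / 2 by norm_num]
  exact rpow_le_rpow h8 hval (by norm_num)

/-- Lower bound for the maximal function. -/
lemma lower (d M : ℕ) (hM : 13 + 4 * |kap d| ≤ M) (ψ : ℝ → ℝ)
    (hψ : ∀ r : ℝ, 0 ≤ r → |ψ (√r) - r| ≤ 1) {p : ℝ≥0∞} (hp : 1 ≤ p) :
    ENNReal.ofReal (M / 4) * (sphereProb (d + 2)) (band (d + 2)) ≤
    normLp p (fun x : RP (d + 2) => ⨆ t : Set.Ico (0 : ℝ) (2 * Real.pi),
        ‖∑ j : Fin M, Complex.exp (-(Complex.I *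
          ((t : ℝ) * ψ (Real.sqrt (lam (d + 2) (4 * M ^ 2 + j))) : ℝ))) *
            Yz (d + 2) (4 * M ^ 2 + j) x‖) := by
  unfold normLp
  have hpi := pi_pos
  set G : sphere (0 : E (d + 2)) 1 → ℝ := fun x => ⨆ t : Set.Ico (0 : ℝ) (2 * Real.pi),
        ‖∑ j : Fin M, Complex.exp (-(Complex.I *
          ((t : ℝ) * ψ (Real.sqrt (lam (d + 2) (4 * M ^ 2 + j))) : ℝ))) *
            Yz (d + 2) (4 * M ^ 2 + j) (toRP x)‖ with hG
  have hG0 : ∀ x, 0 ≤ G x := fun x => Real.iSup_nonneg fun t => norm_nonneg _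
  have hGlow : ∀ x ∈ band (d + 2), (M : ℝ) / 4 ≤ G x := by
    intro x hx
    set φ := arcsin (x.1 0) with hφ
    have hx1 : x.1 0 ≤ 1 := hx.2.le.trans (sin_le_one _)
    have hx2 : -1 ≤ x.1 0 := by
      have : 0 ≤ sin (π / 8) := sin_nonneg_of_nonneg_of_le_pi (by positivity) (by linarith)
      linarith [hx.1]
    have hsin : sin φ = x.1 0 := sin_arcsin hx2 hx1
    have hφ1 : π / 8 ≤ φ := by
      rw [hφ]
      exact (le_arcsin_iff_sin_le' ⟨by linarith, by linarith⟩).mpr hx.1.le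
    have hφ2 : φ ≤ 3 * π / 16 := by
      rw [hφ]
      exact (arcsin_le_iff_le_sin' ⟨by linarith, by linarith⟩).mpr hx.2.le
    have hν := nu_pos d (4 * M ^ 2)
    have hmain := main_lower d M hM hφ1 hφ2 (fun j => ψ (√(lam (d + 2) (4 * M ^ 2 + j))))
      (fun j => hψ _ (lam_nonneg (d + 1) _))
    have hM13 : (13 : ℝ) ≤ M := by linarith [abs_nonneg (kap d)]
    have hν1 : 1 ≤ nu d (4 * M ^ 2) := by
      unfold nu
      have := rho_pos d
      push_cast
      nlinarith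
    set t := φ / (2 * nu d (4 * M ^ 2)) with ht
    have htmem : t ∈ Set.Ico (0 : ℝ) (2 * Real.pi) := by
      constructor
      · have : 0 ≤ φ := by linarith [div_pos hpi (by norm_num : (0 : ℝ) < 8)]
        positivity
      · rw [ht, div_lt_iff₀ (by positivity)]
        nlinarith
    have hbdd : BddAbove (Set.range fun t : Set.Ico (0 : ℝ) (2 * Real.pi) =>
        ‖∑ j : Fin M, Complex.exp (-(Complex.I *
          ((t : ℝ) * ψ (Real.sqrt (lam (d + 2) (4 * M ^ 2 + j))) : ℝ))) *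
            Yz (d + 2) (4 * M ^ 2 + j) (toRP x)‖) := by
      refine ⟨∑ j : Fin M, ‖Yz (d + 2) (4 * M ^ 2 + j) (toRP x)‖, ?_⟩
      rintro _ ⟨t, rfl⟩
      refine (norm_sum_le _ _).trans (le_of_eq ?_)
      apply Finset.sum_congr rfl
      intro j _
      rw [norm_mul]
      have := ee_norm ((t : ℝ) * ψ (Real.sqrt (lam (d + 2) (4 * M ^ 2 + j))))
      unfold ee at this
      rw [this, one_mul]
    refine le_trans ?_ (le_ciSup hbdd ⟨t, htmem⟩)
    refine hmain.trans (le_of_eq ?_)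
    congr 1
    rw [← Fin.sum_univ_eq_sum_range (fun j => ee (t * ψ (√(lam (d + 2) (4 * M ^ 2 + j)))) *
      (yy (d + 2) (4 * M ^ 2 + j) φ : ℂ))]
    apply Finset.sum_congr rfl
    intro j _
    rw [Yz_toRP]
    unfold yy ee
    rw [hsin]
  have h1 : eLpNorm ((band (d + 2)).indicator (fun _ => (M : ℝ) / 4)) p (sphereProb (d + 2)) ≤
      eLpNorm G p (sphereProb (d + 2)) := by
    apply eLpNorm_mono_real
    intro x
    by_cases hx : x ∈ band (d + 2)
    · rw [Set.indicator_of_mem hx, Real.norm_eq_abs, abs_of_nonneg (by positivity)]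
      exact hGlow x hx
    · rw [Set.indicator_of_notMem hx, norm_zero]
      exact hG0 x
  have hmeas : MeasurableSet (band (d + 2)) := (isOpen_band _).measurableSet
  have h2 : eLpNorm ((band (d + 2)).indicator (fun _ => (M : ℝ) / 4)) 1 (sphereProb (d + 2)) ≤
      eLpNorm ((band (d + 2)).indicator (fun _ => (M : ℝ) / 4)) p (sphereProb (d + 2)) := by
    apply eLpNorm_le_eLpNorm_of_exponent_le hp
    exact (aestronglyMeasurable_const).indicator hmeas
  refine le_trans (le_of_eq ?_) (h2.trans h1)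
  rw [eLpNorm_indicator_const hmeas one_ne_zero ENNReal.one_ne_top]
  simp only [ENNReal.toReal_one, div_one, ENNReal.rpow_one]
  congr 1
  rw [Real.enorm_eq_ofReal (by positivity)]

/-- The main theorem for a general `ψ` with `ψ(r) = r² + O(1)`. -/
theorem not_estimate (d : ℕ) (ψ : ℝ → ℝ) (hψ : ∀ r : ℝ, 0 ≤ r → |ψ (√r) - r| ≤ 1)
    {p : ℝ≥0∞} (hp : 1 ≤ p) {α : ℝ} (hα0 : 0 ≤ α) (hα : α < 1 / 4) :
    ¬ FiniteRadialMaximalEstimate (d + 2) ψ p α := by
  rintro ⟨C, hC⟩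
  set s := ((sphereProb (d + 2)) (band (d + 2))).toReal with hs
  have hs0 : 0 < s := ENNReal.toReal_pos (band_pos (d + 1)).ne' (measure_ne_top _ _)
  set K : ℝ := 200 + 20 * d with hK
  have hK0 : 0 < K := by positivity
  have hI := im_zero_pos (d + 1)
  set D : ℝ := C * √(10 / im (d + 1) 0 * K ^ α) with hD
  have hD0 : 0 ≤ D := by positivity
  -- the inequality for each M
  have hineq : ∀ M : ℕ, 13 + 4 * |kap d| ≤ M → (M : ℝ) / 4 * s ≤ D * (M : ℝ) ^ (1 / 2 + 2 * α) := by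
    intro M hM
    have hM13 : (13 : ℝ) ≤ M := by linarith [abs_nonneg (kap d)]
    have hM0 : (0 : ℝ) < M := by linarith
    have h1 := hC M (fun j => lam (d + 2) (4 * M ^ 2 + j)) (fun j => Yz (d + 2) (4 * M ^ 2 + j))
      (fun j => isRadialEigenfunction_Yz (d + 1) _)
    have h2 := lower d M hM ψ hψ hp
    have h3 := upper d M hM (fun j => (1 + lam (d + 2) (4 * M ^ 2 + j)) ^ (α / 2))
    have h4 := h2.trans (h1.trans (mul_le_mul_right h3 (C : ℝ≥0∞)))
    have h5 : ENNReal.ofReal (M / 4 * s) ≤ ENNReal.ofReal (C *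
        √(10 / im (d + 1) 0 * ∑ j ∈ Finset.range M,
          ((1 + lam (d + 2) (4 * M ^ 2 + j)) ^ (α / 2)) ^ 2)) := by
      rw [ENNReal.ofReal_mul (by positivity), ENNReal.ofReal_mul (by positivity), hs,
        ENNReal.ofReal_toReal (measure_ne_top _ _), ENNReal.ofReal_coe_nnreal]
      exact h4
    have h6 := (ENNReal.ofReal_le_ofReal_iff (by positivity)).mp h5
    refine h6.trans ?_
    rw [hD, mul_assoc]
    apply mul_le_mul_of_nonneg_left _ C.coe_nonneg
    have h7 : ∑ j ∈ Finset.range M, ((1 + lam (d + 2) (4 * M ^ 2 + j)) ^ (α / 2)) ^ 2 ≤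
        K ^ α * (M : ℝ) ^ (1 + 4 * α) := by
      have h8 : ∀ j ∈ Finset.range M, ((1 + lam (d + 2) (4 * M ^ 2 + j)) ^ (α / 2)) ^ 2 ≤
          K ^ α * (M : ℝ) ^ (4 * α) := by
        intro j hj
        have hj' : (j : ℝ) ≤ M := by exact_mod_cast (Finset.mem_range.mp hj).le
        have hj0 : (0 : ℝ) ≤ j := Nat.cast_nonneg j
        have hl0 : 0 ≤ lam (d + 2) (4 * M ^ 2 + j) := lam_nonneg (d + 1) _
        have hd0 : (0 : ℝ) ≤ d := Nat.cast_nonneg d
        have hl : 1 + lam (d + 2) (4 * M ^ 2 + j) ≤ K * (M : ℝ) ^ 4 := by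
          unfold lam
          push_cast
          have e1 : 2 * (4 * (M : ℝ) ^ 2 + j) ≤ 10 * (M : ℝ) ^ 2 := by nlinarith
          have e2 : 2 * (4 * (M : ℝ) ^ 2 + j) + (d + 2) - 1 ≤ (11 + d) * (M : ℝ) ^ 2 := by
            have hM2 : 0 ≤ (M : ℝ) ^ 2 - 1 := by nlinarith
            have := mul_nonneg hd0 hM2
            nlinarith
          have e3 : 0 ≤ 2 * (4 * (M : ℝ) ^ 2 + j) := by positivity
          have e4 : 0 ≤ 2 * (4 * (M : ℝ) ^ 2 + j) + (d + 2) - 1 := by nlinarith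
          have e5 : 2 * (4 * (M : ℝ) ^ 2 + j) * (2 * (4 * (M : ℝ) ^ 2 + j) + (d + 2) - 1) ≤
              (10 * (M : ℝ) ^ 2) * ((11 + d) * (M : ℝ) ^ 2) :=
            mul_le_mul e1 e2 e4 (by positivity)
          have e6 : (1 : ℝ) ≤ (M : ℝ) ^ 4 := one_le_pow₀ (by linarith)
          have e7 : (10 * (M : ℝ) ^ 2) * ((11 + d) * (M : ℝ) ^ 2) =
              (110 + 10 * d) * (M : ℝ) ^ 4 := by ring
          rw [hK]
          nlinarith
        have h9 : ((1 + lam (d + 2) (4 * M ^ 2 + j)) ^ (α / 2)) ^ 2 =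
            (1 + lam (d + 2) (4 * M ^ 2 + j)) ^ α := by
          rw [← rpow_natCast, ← rpow_mul (by linarith)]
          congr 1
          push_cast
          ring
        rw [h9]
        calc (1 + lam (d + 2) (4 * M ^ 2 + j)) ^ α ≤ (K * (M : ℝ) ^ 4) ^ α :=
              rpow_le_rpow (by linarith) hl hα0
          _ = K ^ α * (M : ℝ) ^ (4 * α) := by
              rw [mul_rpow hK0.le (by positivity), ← rpow_natCast (M : ℝ) 4, ← rpow_mul hM0.le]
              norm_num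
      refine (Finset.sum_le_sum h8).trans (le_of_eq ?_)
      rw [Finset.sum_const, Finset.card_range, nsmul_eq_mul, rpow_add hM0, rpow_one]
      ring
    calc √(10 / im (d + 1) 0 * ∑ j ∈ Finset.range M,
          ((1 + lam (d + 2) (4 * M ^ 2 + j)) ^ (α / 2)) ^ 2)
        ≤ √(10 / im (d + 1) 0 * (K ^ α * (M : ℝ) ^ (1 + 4 * α))) := by
          apply sqrt_le_sqrt
          gcongr
      _ = √(10 / im (d + 1) 0 * K ^ α) * (M : ℝ) ^ (1 / 2 + 2 * α) := by
          rw [← mul_assoc, sqrt_mul (by positivity)]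
          congr 1
          rw [sqrt_eq_rpow, ← rpow_mul hM0.le]
          congr 1
          ring
  -- contradiction for large M
  have hexp : 0 < 1 / 2 - 2 * α := by linarith
  have htend : Filter.Tendsto (fun M : ℕ => ((M : ℝ)) ^ (1 / 2 - 2 * α)) Filter.atTop Filter.atTop :=
    (tendsto_rpow_atTop hexp).comp tendsto_natCast_atTop_atTop
  have hev1 := htend.eventually_gt_atTop (4 * D / s)
  have hev2 : ∀ᶠ M : ℕ in Filter.atTop, 13 + 4 * |kap d| ≤ M :=
    tendsto_natCast_atTop_atTop.eventually_ge_atTop _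
  obtain ⟨M, hM1, hM2⟩ := (hev1.and hev2).exists
  have h1 := hineq M hM2
  have hM0 : (0 : ℝ) < M := by linarith [abs_nonneg (kap d)]
  have h2 : (M : ℝ) = (M : ℝ) ^ (1 / 2 - 2 * α) * (M : ℝ) ^ (1 / 2 + 2 * α) := by
    rw [← rpow_add hM0]
    have : (1 / 2 - 2 * α + (1 / 2 + 2 * α)) = (1 : ℝ) := by ring
    rw [this, rpow_one]
  have hP : 0 < (M : ℝ) ^ (1 / 2 + 2 * α) := rpow_pos_of_pos hM0 _
  set P := (M : ℝ) ^ (1 / 2 + 2 * α)
  set R := (M : ℝ) ^ (1 / 2 - 2 * α)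
  rw [h2] at h1
  rw [div_lt_iff₀ hs0] at hM1
  have h3 : R * P / 4 * s = (R * s) * P / 4 := by ring
  rw [h3] at h1
  nlinarith

end Pool.Agent.Lib.MP_6a2c25_an
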