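import Mathlib
import Pool.Agent.Lib.MP_6a2c25_an.Final

set_option autoImplicit false

/-!
The three dispersion relations.
-/

namespace Pool.Agent.Lib.MP_6a2c25_an

open Real
open scoped ENNReal

lemma schrodinger_close (r : ℝ) (hr : 0 ≤ r) : |schrodinger (√r) - r| ≤ 1 := by
  unfold schrodinger
  rw [sq_sqrt hr]
  simp

lemma boussinesq_close (r : ℝ) (hr : 0 ≤ r) : |boussinesq (√r) - r| ≤ 1 := by
  unfold boussinesq
  rw [sq_sqrt hr, ← sqrt_mul hr]
  have h1 : r ≤ √(r * (1 + r)) := by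
    apply le_sqrt_of_sq_le
    nlinarith
  have h2 : √(r * (1 + r)) ≤ r + 1 := by
    rw [sqrt_le_left (by linarith)]
    nlinarith
  rw [abs_of_nonneg (by linarith)]
  linarith

lemma beam_close (r : ℝ) (hr : 0 ≤ r) : |beam (√r) - r| ≤ 1 := by
  unfold beam
  have h0 : √r ^ 4 = r ^ 2 := by
    have : √r ^ 4 = (√r ^ 2) ^ 2 := by ring
    rw [this, sq_sqrt hr]
  rw [h0]
  have h1 : r ≤ √(1 + r ^ 2) := by
    apply le_sqrt_of_sq_le
    linarith
  have h2 : √(1 + r ^ 2) ≤ r + 1 := by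
    rw [sqrt_le_left (by linarith)]
    nlinarith
  rw [abs_of_nonneg (by linarith)]
  linarith

theorem main (d : ℕ) (hd : 2 ≤ d) (ψ : ℝ → ℝ)
    (hψ : ψ = schrodinger ∨ ψ = boussinesq ∨ ψ = beam) (p : ℝ≥0∞) (hp : 1 ≤ p) (α : ℝ)
    (hα0 : 0 ≤ α) (hα : α < 1 / 4) : ¬ FiniteRadialMaximalEstimate d ψ p α := by
  obtain ⟨e, rfl⟩ : ∃ e, d = e + 2 := ⟨d - 2, by omega⟩
  apply not_estimate e ψ _ hp hα0 hα
  rcases hψ with rfl | rfl | rfl
  · exact schrodinger_close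
  · exact boussinesq_close
  · exact beam_close

end Pool.Agent.Lib.MP_6a2c25_an
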